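import Mathlib
import Pool.Agent.H13R3.WB.Lin

/-!
# Project FP: finite posets with nearly minimal balance constant have polynomially many elements

Definitions. `Ek`, `Fk` count the linear extensions of a finite set (all of them, and those with `x`
before `y`) by removing minimal elements. `Band D r`: `r` is a strict order on `ℕ` for which the
identity is a linear extension and all numbers at distance at least `D` are comparable. The poset
`{0, …, n - 1}` with the order `r` is `(r, n)`; `bal r n` is its balance constant. `Win R r' a' r a`: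
the windows of length `R` at `a'` and at `a` are the same. `Loc R r' n' r n`: every window of length
`R` of `(r', n')` occurs in `(r, n)`, the first one and the last one at the same place.
-/

set_option autoImplicit false

open Finset
open scoped Classical

namespace Run7.h640.FP

section gen

variable {α : Type*}

/-- the minimal elements of `S` -/
noncomputable def Mn (r : α → α → Prop) (S : Finset α) : Finset α :=
  S.filter fun m => ∀ a ∈ S, ¬ r a m

/-- the number of the linear extensions of `S`, for `k = |S|` -/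
noncomputable def Ek (r : α → α → Prop) : ℕ → Finset α → ℕ
  | 0, _ => 1
  | k + 1, S => ∑ m ∈ Mn r S, Ek r k (S.erase m)

/-- the number of the linear extensions of `S` in which `x` comes before `y`, for `k = |S|` -/
noncomputable def Fk (r : α → α → Prop) (x y : α) : ℕ → Finset α → ℕ
  | 0, _ => 0
  | k + 1, S => ∑ m ∈ Mn r S,
      if m = y then 0 else if m = x then Ek r k (S.erase m) else Fk r x y k (S.erase m)

/-- the number of the linear extensions of `S` -/
noncomputable def En (r : α → α → Prop) (S : Finset α) : ℕ := Ek r S.card S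

/-- the number of the linear extensions of `S` in which `x` comes before `y` -/
noncomputable def Fn (r : α → α → Prop) (x y : α) (S : Finset α) : ℕ := Fk r x y S.card S

/-- the probability that `x` comes before `y` in a random linear extension of `S` -/
noncomputable def pr (r : α → α → Prop) (x y : α) (S : Finset α) : ℝ :=
  (Fn r x y S : ℝ) / (En r S : ℝ)

end gen

/-- strict orders on `ℕ` with the identity as a linear extension, in which numbers at distance at
least `D` are comparable -/
structure Band (D : ℕ) (r : ℕ → ℕ → Prop) : Prop where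
  lt : ∀ i j, r i j → i < j
  trans : ∀ i j k, r i j → r j k → r i k
  far : ∀ i j, i + D ≤ j → i < j → r i j

lemma Band.strict {D : ℕ} {r : ℕ → ℕ → Prop} (h : Band D r) : IsStrictOrder ℕ r where
  irrefl := fun a ha => lt_irrefl _ (h.lt a a ha)
  trans := h.trans

/-- the contraction factor of `D` steps -/
noncomputable def rho (D : ℕ) : ℝ := 1 - 1 / (2 * (D : ℝ)) ^ D

/-- the balance constant of `{0, …, n - 1}` with the order `r` -/
noncomputable def bal (r : ℕ → ℕ → Prop) (n : ℕ) : ℝ :=
  ⨆ p : Fin n × Fin n, min (pr r (p.1 : ℕ) (p.2 : ℕ) (range n)) (pr r (p.2 : ℕ) (p.1 : ℕ) (range n))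

/-- the windows of length `R` of `r'` at `a'` and of `r` at `a` are the same -/
def Win (R : ℕ) (r' : ℕ → ℕ → Prop) (a' : ℕ) (r : ℕ → ℕ → Prop) (a : ℕ) : Prop :=
  ∀ u v, u < R → v < R → (r' (a' + u) (a' + v) ↔ r (a + u) (a + v))

/-- all windows of length `R` of `(r', n')` occur in `(r, n)`; the first and the last ones are
the same -/
structure Loc (R : ℕ) (r' : ℕ → ℕ → Prop) (n' : ℕ) (r : ℕ → ℕ → Prop) (n : ℕ) : Prop where
  len' : R ≤ n'
  len : R ≤ n
  bot : Win R r' 0 r 0
  top : Win R r' (n' - R) r (n - R)
  mid : ∀ t, t + R ≤ n' → ∃ s, s + R ≤ n ∧ Win R r' t r s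

/-- incomparable numbers -/
def Inc (r : ℕ → ℕ → Prop) (x y : ℕ) : Prop := x ≠ y ∧ ¬ r x y ∧ ¬ r y x

/-- incomparable elements of a poset -/
def IncP {P : Type} [PartialOrder P] (x y : P) : Prop := ¬ x ≤ y ∧ ¬ y ≤ x

/-- some connected component of the graph `I` of the incomparable pairs is neither a vertex nor a path
with three vertices: an isolated edge, a triangle, a vertex of degree three, or a path with four
vertices -/
def FeatG {V : Type} (I : V → V → Prop) : Prop :=
  (∃ x y, I x y ∧ ∀ z, z ≠ x → z ≠ y → ¬ I x z ∧ ¬ I y z) ∨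
  (∃ a b c, I a b ∧ I b c ∧ I a c) ∨
  (∃ x a b c, I x a ∧ I x b ∧ I x c ∧ a ≠ b ∧ a ≠ c ∧ b ≠ c) ∨
  (∃ a b c d, I a b ∧ I b c ∧ I c d ∧ a ≠ c ∧ a ≠ d ∧ b ≠ d)

/-- the same for `(r, n)` -/
def Feat (r : ℕ → ℕ → Prop) (n : ℕ) : Prop := FeatG (V := Fin n) fun x y => Inc r (x : ℕ) (y : ℕ)

/-- the width of `(r, n)` is `w` -/
def Wid (w : ℕ) (r : ℕ → ℕ → Prop) (n : ℕ) : Prop :=
  (∃ s : Finset ℕ, s ⊆ range n ∧ s.card = w ∧ ∀ a ∈ s, ∀ b ∈ s, a ≠ b → Inc r a b) ∧
  ∀ s : Finset ℕ, s ⊆ range n → (∀ a ∈ s, ∀ b ∈ s, a ≠ b → Inc r a b) → s.card ≤ w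

end Run7.h640.FP
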