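import Mathlib
import Pool.Agent.Run7.h640.FP.Defs

/-!
# Project FP: the pieces

Target (hard pages MP_33fb9b_co and MP_c890a7_co): there are absolute `C, c > 0` such that for every
finite poset `P` outside `𝒟` and every `n ≥ 2` some poset `Q` outside `𝒟` with at most `n` elements has
`balance Q ≤ balance P + C n ^ (-c)` (and the same for posets of width `w`, with `C, c` depending on
`w`). So Q1 of MP_33fb9b_co holds if and only if for some `n` all posets outside `𝒟` with at most `n`
elements have balance constant larger than `1/3 + C n ^ (-c)`.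

Proof: a poset with balance constant below `1/2 - ε` is thin (starting result `ManyIncomparable`), so it
is `(r, n)` with `Band D r`. Random linear extensions of such posets forget the far past
exponentially fast (`S_LOCB`, `S_LOCT`), so the probabilities are determined by windows of length
`R ~ log` up to `1 / poly`; there are only `2 ^ (2 R D)` windows, and a longer poset can be
shortened by cutting out the part between two equal windows (`S_CUT`, `S_RED`).

Each `S_…` is a closed proposition, to be proved as `theorem prove_… : S_…` in a file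
`Pool/Agent/Run7/h640/FP/P_….lean` (or your own directory), importing this file.
-/

set_option autoImplicit false

open Finset
open scoped Classical
open Pool.Agent.H13R3.WB

namespace Run7.h640.FP

/-- (POS) induction on `|S|`; a finite nonempty set has a minimal element, and the linear extensions
with `x` before `y` and with `y` before `x` together are all. -/
def S_POS : Prop := ∀ (α : Type) (r : α → α → Prop) [IsStrictOrder α r] (S : Finset α),
  0 < En r S ∧ ∀ x ∈ S, ∀ y ∈ S, x ≠ y → Fn r x y S + Fn r y x S = En r S

/-- (STEP) A minimal element `m` with at most `k` elements incomparable to it is the first one of at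
least `1 / (k + 1)` of the linear extensions. Induction on `|S|`:
`En S = En (S - m) + ∑_{m' ≠ m minimal} En (S - m')`. Such an `m'` is incomparable to `m`, so by induction
`En (S - m') ≤ k En (S - m' - m)` (`m` is minimal in `S - m'` with at most `k - 1` incomparable
elements), and the minimal `m' ≠ m` of `S` are minimal in `S - m`, so
`∑ En (S - m - m') ≤ En (S - m)`. -/
def S_STEP : Prop := ∀ (α : Type) (r : α → α → Prop) [IsStrictOrder α r] (S : Finset α) (m : α)
  (k : ℕ), m ∈ Mn r S → (S.filter fun a => a ≠ m ∧ ¬ r m a).card ≤ k →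
    En r S ≤ (k + 1) * En r (S.erase m)

/-- (DUAL) Removing maximal elements gives the same numbers. Induction on `|S|`, both sides expanded
twice: for `|S| ≥ 2`, `Max (S - m) = Max S - m` for `m` minimal in `S`, and `Min (S - M) = Min S - M` for
`M` maximal in `S`, so both are sums over the pairs `m ≠ M`, `m` minimal, `M` maximal, of the number for
`S - m - M`. For `Fn`: the pair contributes 0 if `m = y` or `M = x`; `En (S - m - M)` if (`m = x` or
`M = y`) and not (`m = y` or `M = x`); `Fn (S - m - M)` otherwise. -/
def S_DUAL : Prop := ∀ (α : Type) (r : α → α → Prop) [IsStrictOrder α r] (S : Finset α),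
  En (fun a b => r b a) S = En r S ∧
    ∀ x ∈ S, ∀ y ∈ S, x ≠ y → Fn (fun a b => r b a) y x S = Fn r x y S

/-- (MAP) transport along a map which is injective on `S` and respects the relations -/
def S_MAP : Prop := ∀ (α β : Type) (r : α → α → Prop) (s : β → β → Prop) (f : α → β) (S : Finset α),
  Set.InjOn f (S : Set α) → (∀ a ∈ S, ∀ b ∈ S, (s (f a) (f b) ↔ r a b)) →
    En s (S.image f) = En r S ∧ ∀ x ∈ S, ∀ y ∈ S, Fn s (f x) (f y) (S.image f) = Fn r x y S

/-- (CONN) the recursive numbers are the numbers of linear extensions. Use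
`Pool.Agent.H13R3.WB.card_count`, `mono_iff`, `mono_lt_iff` (files `H13R3/WB/Count.lean`, `Lin.lean`):
`D A m J` with `A = IsLow`, and with `A J = IsLow J ∧ (y ∈ J → x ∈ J)`, is `Ek (· < ·) m (univ \ J)`,
`Fk …` for lower sets `J` with `m` elements outside; once `x ∈ J` the second one is the first one;
for `x = y` both sides are 0 (`prob_self`). -/
def S_CONN : Prop := ∀ (P : Type) [Fintype P] [PartialOrder P] (x y : P),
  prob P x y = pr (fun a b : P => a < b) x y univ

/-- (LOCB) The distribution forgets the bottom part. Let `P = Ico l b`, `t = a - l`. For an upper set `S`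
of `P` (complement `I = P \ S` a lower set, `|I| = s`) let `f S = pr r x y S`. All elements of `I` are
`< l + s + D` (an element `z ≥ l + s + D` of `I` has the `s + 1` elements `l, …, z - D` below it). As long as
`x, y` are not minimal in `S`, `f S` is the average of the `f (S - m)` with the weights
`En (S - m) / En S`, `m ∈ Mn r S`; so with `lo_s, hi_s` the least and the largest value of `f` on the
upper sets with `|I| = s`: `lo_{s+1} ≤ lo_s ≤ hi_s ≤ hi_{s+1}` for `l + s + D ≤ x, y`.
Contraction: `hi_s - lo_s ≤ (1 - (2D)^(-D)) (hi_{s+D} - lo_{s+D})`. Indeed let `J₀ = Ico l (l + s + D)`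
and `f₀ = f (P \ J₀) = f (Ico (l+s+D) b)`. From any `S` with `|I| = s` one reaches `P \ J₀` by removing
`D` times the least number `m` of `S`, which is minimal in `S` and has at most `2D - 2` elements
incomparable to it in `S`, so has weight at least `1 / (2D)` by (STEP). By induction on `|J₀ \ I|`:
`f S ≤ hi - (2D)^(-|J₀ \ I|) (hi - f₀)` and `f S ≥ lo + (2D)^(-|J₀ \ I|) (f₀ - lo)` with
`hi = hi_{s+D}`, `lo = lo_{s+D}`. Apply the contraction `q` times, starting at `s = t`: all values
`f S` with `|I| = t` are in an interval of length `rho D ^ q`; `f (Ico a b)` is one of them, and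
`f (Ico l b)` is an average of them. -/
def S_LOCB : Prop := S_POS → S_STEP → ∀ (D : ℕ) (r : ℕ → ℕ → Prop), 1 ≤ D → Band D r →
  ∀ l a b q x y : ℕ, l ≤ a → a + (q + 1) * D ≤ x → a + (q + 1) * D ≤ y → x < b → y < b → x ≠ y →
    |pr r x y (Ico l b) - pr r x y (Ico a b)| ≤ rho D ^ q

/-- (LOCT) The same at the top, from (LOCB) for the reversed order `r* i j = r (b' - 1 - j) (b' - 1 - i)`
for `i, j < b'` (and `i < j` if `j ≥ b'`), which is `Band D`, by (DUAL) and (MAP). -/
def S_LOCT : Prop := S_POS → S_STEP → S_DUAL → S_MAP → S_LOCB →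
  ∀ (D : ℕ) (r : ℕ → ℕ → Prop), 1 ≤ D → Band D r →
  ∀ a b b' q x y : ℕ, b ≤ b' → a ≤ x → a ≤ y → x + (q + 1) * D < b → y + (q + 1) * D < b → x ≠ y →
    |pr r x y (Ico a b') - pr r x y (Ico a b)| ≤ rho D ^ q

/-- (CUT) surgery: `r' u v` is `r u v` if `v < i + R`; `r (u + (j - i)) (v + (j - i))` if `v ≥ i + R` and
`u ≥ i - R`; and `True` if `v ≥ i + R` and `u < i - R`. -/
def S_CUT : Prop := ∀ (D R i j : ℕ) (r : ℕ → ℕ → Prop), 1 ≤ D → D ≤ R → Band D r → R ≤ i → i < j →
  Win (2 * R) r (i - R) r (j - R) →
    ∃ r' : ℕ → ℕ → Prop, Band D r' ∧ (∀ u v, u < i + R → v < i + R → (r' u v ↔ r u v)) ∧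
      ∀ u v, i - R ≤ u → i - R ≤ v → (r' u v ↔ r (u + (j - i)) (v + (j - i)))

/-- (PIG) pigeonhole: the window at `i - R` of length `2 R` is determined by the truth values of
`r (i - R + u) (i - R + u + 1 + d)`, `u < 2 R`, `d < D`. -/
def S_PIG : Prop := ∀ (D R : ℕ) (r : ℕ → ℕ → Prop), 1 ≤ D → Band D r → ∀ a, R ≤ a →
  ∃ i j, a ≤ i ∧ i < j ∧ j ≤ a + 2 ^ (2 * R * D) ∧ Win (2 * R) r (i - R) r (j - R)

/-- (RED) Shortening. Strong induction on `n`; `Loc` is reflexive (for `R ≤ n`) and transitive. If
`n ≥ k + 2 R + 2 ^ (2 R D)`, cut between two equal windows at `i < j` in `[k + R, n - R]`; if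
`k ≥ R + 2 ^ (2 R D)`, cut between two equal windows at `i < j` in `[R, k]`, then `k` becomes
`k - (j - i)`. In both cases the result `(r', n - (j - i))` of (CUT) satisfies
`Loc R r' (n - (j - i)) r n`: a window at `t ≤ i` is the one of `r` at `t`, one at `t ≥ i - R` is the one of
`r` at `t + (j - i)`. -/
def S_RED : Prop := S_CUT → S_PIG → ∀ (D R n k : ℕ) (r : ℕ → ℕ → Prop), 1 ≤ D → D ≤ R → Band D r →
  k + R ≤ n → ∃ (r' : ℕ → ℕ → Prop) (n' k' : ℕ), Band D r' ∧ Loc R r' n' r n ∧ k' + R ≤ n' ∧
    Win R r' k' r k ∧ n' ≤ 3 * R + 2 * 2 ^ (2 * R * D)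

/-- (CMP) Comparison of the balance constants. Let `x < y < n'` with `y < x + D` (if `x + D ≤ y` then
`r' x y` and `Fn r' y x = 0`, as `y` is never minimal before `x` is removed; `pr … x x = 0`; and
`0 ≤ bal r n`, from a pair `(x, x)`). Let `m = (q + 1) D`. The window of `(r', n')` at `t` and the one of
`(r, n)` at `s` are the same, with `t = s = 0` if `x < m` (`Loc.bot`); `t = x - m` and `s` from `Loc.mid` if
`m ≤ x` and `x - m + R ≤ n'`; and `t = n' - R`, `s = n - R` otherwise (`Loc.top`). In the window there are
`m` numbers below `x`, except in the first case, where the windows start at the bottom of both posets,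
and more than `m` above `y`, except in the third case, where they end at the top of both. The
probabilities in `(r', n')` and in its window differ by at most `2 rho ^ q` by (LOCB), (LOCT) (nothing to
do at an end), the same for `(r, n)`, and the windows are isomorphic by a translation (MAP). Do the
same for `y, x` in place of `x, y`, and use that `min` is 1-Lipschitz. -/
def S_CMP : Prop := S_POS → S_MAP → S_LOCB → S_LOCT → S_STEP → S_DUAL →
  ∀ (D R q n n' : ℕ) (r r' : ℕ → ℕ → Prop), 1 ≤ D → 2 * (q + 2) * D ≤ R → Band D r → Band D r' →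
    Loc R r' n' r n → bal r' n' ≤ bal r n + 4 * rho D ^ q

/-- (TOP) A poset in which every element is incomparable to at most `K` others is `(r, n)` with a band of
width `2 K + 2`. Take a linear extension `e` of `P`, `r i j` iff (`i, j < n` and `e⁻¹ i < e⁻¹ j`) or
(`j ≥ n` and `i < j`). If `e⁻¹ i`, `e⁻¹ j`, `i < j`, are incomparable, each element between is incomparable
to one of the two, so `j - i - 1 ≤ 2 K`. Balance constants by (CONN) and (MAP). -/
def S_TOP : Prop := S_CONN → S_MAP → ∀ (P : Type) [Fintype P] [PartialOrder P] (K : ℕ),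
  (∀ x : P, Nat.card {y : P // ¬ x ≤ y ∧ ¬ y ≤ x} ≤ K) →
    ∃ (r : ℕ → ℕ → Prop) (e : P ≃ Fin (Fintype.card P)), Band (2 * K + 2) r ∧
      (∀ x y : P, r (e x : ℕ) (e y : ℕ) ↔ x < y) ∧ balance P = bal r (Fintype.card P)

/-- (BACK) `(r, n)` as a poset (a copy of `Fin n`) -/
def S_BACK : Prop := S_CONN → S_MAP → ∀ (D n : ℕ) (r : ℕ → ℕ → Prop), Band D r →
  ∃ (Q : Type) (_ : Fintype Q) (_ : PartialOrder Q) (e : Q ≃ Fin n), Fintype.card Q = n ∧
    (∀ x y : Q, r (e x : ℕ) (e y : ℕ) ↔ x < y) ∧ balance Q = bal r n

/-- (FEA) A nonempty finite poset all of whose components of the incomparability graph are vertices or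
paths with three vertices is in `𝒟`. Strong induction on `|P|`. The minimal elements form an
antichain, so there are at most two (no triangle). One, `m`: `P = 1 ⊕ (P - m)`. Two, `a`, `b`: the edge
`ab` is not isolated, say `c` is incomparable to `a`, `c ≠ b`; then `b < c`; `a` has no other neighbours
(degree), nor have `b` and `c` (path with four vertices); all other elements are above `a`, `b`, `c`,
so `P = {a, b, c} ⊕ rest`, and no new isolated edge arises in the rest (which may be empty). -/
def S_FEA : Prop := ∀ (P : Type) [Fintype P] [PartialOrder P] [Nonempty P],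
  ¬ FeatG (V := P) (fun x y => IncP x y) → InD P

/-- (FEB) conversely, no poset in `𝒟` has such a component; induction as for `InD.few` -/
def S_FEB : Prop := ∀ (P : Type) [PartialOrder P], InD P → ¬ FeatG (V := P) (fun x y => IncP x y)

/-- (KEEP) The bad component survives if one window is kept. All elements of the feature are within
`3 D` of its first element `x₀` (incomparable numbers are at distance `< D`). Take
`k = min (x₀ - 5 D) (n - R)` (truncated subtraction). For triangles, vertices of degree three and
paths the elements are in `Ico k (k + R)`, and their copies in the window at `k'` do. For an isolated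
edge `x y` use `k' = 0` (`Loc.bot`) if `k = 0`, `k' = n' - R` (`Loc.top`) if `k = n - R`, and the given `k'`
otherwise: every number incomparable to the copy of `x` or `y` is within `D` of it, so in the window. -/
def S_KEEP : Prop := ∀ (D R n : ℕ) (r : ℕ → ℕ → Prop), 1 ≤ D → 12 * D ≤ R → R ≤ n → Band D r →
  Feat r n → ∃ k, k + R ≤ n ∧ ∀ (r' : ℕ → ℕ → Prop) (n' k' : ℕ), Band D r' → Loc R r' n' r n →
    k' + R ≤ n' → Win R r' k' r k → Feat r' n'

/-- (KEEPW) The same for the width: an antichain lies in an interval of length `D`, and every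
antichain of `(r', n')` lies in a window, which occurs in `(r, n)`. -/
def S_KEEPW : Prop := ∀ (D R n w : ℕ) (r : ℕ → ℕ → Prop), 1 ≤ D → D ≤ R → R ≤ n → Band D r →
  Wid w r n → ∃ k, k + R ≤ n ∧ ∀ (r' : ℕ → ℕ → Prop) (n' k' : ℕ), Band D r' → Loc R r' n' r n →
    k' + R ≤ n' → Win R r' k' r k → Wid w r' n'

end Run7.h640.FP
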