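import Mathlib
import Pool.Agent.Run7.h640.FP.Iface

/-! Project FP: the core of the assembly. -/

set_option autoImplicit false

open Finset
open scoped Classical
open Pool.Agent.H13R3.WB

namespace Run7.h640.FP

lemma rho_lt_one {D : ℕ} (hD : 1 ≤ D) : rho D < 1 := by
  unfold rho
  have : (0 : ℝ) < (2 * (D : ℝ)) ^ D := by
    have : (1 : ℝ) ≤ D := by exact_mod_cast hD
    positivity
  have := one_div_pos.mpr this
  linarith

lemma half_le_rho {D : ℕ} (hD : 1 ≤ D) : 1 / 2 ≤ rho D := by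
  unfold rho
  have h1 : (1 : ℝ) ≤ D := by exact_mod_cast hD
  have h2 : (2 : ℝ) ≤ (2 * (D : ℝ)) ^ D := by
    calc (2 : ℝ) ≤ 2 * D := by linarith
      _ = (2 * (D : ℝ)) ^ 1 := by ring
      _ ≤ (2 * (D : ℝ)) ^ D := pow_le_pow_right₀ (by linarith) hD
  have : 1 / (2 * (D : ℝ)) ^ D ≤ 1 / 2 := one_div_le_one_div_of_le (by norm_num) h2
  linarith

/-- the exponent -/
noncomputable def cc (D : ℕ) : ℝ := -Real.log (rho D) / (4 * (D : ℝ) ^ 2 * Real.log 2)

/-- the constant -/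
noncomputable def CC (D : ℕ) : ℝ := 4 * (2 : ℝ) ^ (cc D * (32 * (D : ℝ) ^ 2 + 2)) / rho D

lemma cc_pos {D : ℕ} (hD : 1 ≤ D) : 0 < cc D := by
  unfold cc
  have h1 : (1 : ℝ) ≤ D := by exact_mod_cast hD
  have h2 := rho_lt_one hD
  have h3 := half_le_rho hD
  have h4 : Real.log (rho D) < 0 := Real.log_neg (by linarith) h2
  have h5 : 0 < Real.log 2 := Real.log_pos (by norm_num)
  exact div_pos (by linarith) (by positivity)

lemma CC_pos {D : ℕ} (hD : 1 ≤ D) : 0 < CC D := by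
  unfold CC
  have h3 := half_le_rho hD
  have : (0 : ℝ) < (2 : ℝ) ^ (cc D * (32 * (D : ℝ) ^ 2 + 2)) := Real.rpow_pos_of_pos (by norm_num) _
  exact div_pos (by positivity) (by linarith)

lemma two_pow_cc {D : ℕ} (hD : 1 ≤ D) : (2 : ℝ) ^ (-(cc D * (4 * (D : ℝ) ^ 2))) = rho D := by
  have h1 : (1 : ℝ) ≤ D := by exact_mod_cast hD
  have h3 := half_le_rho hD
  have h5 : 0 < Real.log 2 := Real.log_pos (by norm_num)
  rw [Real.rpow_def_of_pos (by norm_num)]
  have : Real.log 2 * -(cc D * (4 * (D : ℝ) ^ 2)) = Real.log (rho D) := by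
    unfold cc
    field_simp
  rw [this, Real.exp_log (by linarith)]

/-- the numerical part: either the error term is at least `1/2`, or there is a `q` -/
lemma numeric {D : ℕ} (hD : 1 ≤ D) (N : ℕ) (hN : 1 ≤ N) :
    1 / 2 ≤ CC D * (N : ℝ) ^ (-cc D) ∨
      ∃ q : ℕ, 3 * (2 * (q + 8) * D) + 2 * 2 ^ (2 * (2 * (q + 8) * D) * D) ≤ N ∧
        4 * rho D ^ q ≤ CC D * (N : ℝ) ^ (-cc D) := by
  have h1 : (1 : ℝ) ≤ D := by exact_mod_cast hD
  have hr := half_le_rho hD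
  have hr1 := rho_lt_one hD
  have hc := cc_pos hD
  have hN0 : (0 : ℝ) < N := by exact_mod_cast hN
  have hA : 0 < 4 * D ^ 2 := by positivity
  by_cases hcase : 2 ^ (32 * D ^ 2 + 2) ≤ N
  · right
    -- the largest q
    have hex : ∃ q : ℕ, 2 ^ (4 * D ^ 2 * q + (32 * D ^ 2 + 2)) ≤ N ∧
        N < 2 ^ (4 * D ^ 2 * (q + 1) + (32 * D ^ 2 + 2)) := by
      by_contra hno
      push Not at hno
      have hall : ∀ q : ℕ, 2 ^ (4 * D ^ 2 * q + (32 * D ^ 2 + 2)) ≤ N := by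
        intro q
        induction q with
        | zero => simpa using hcase
        | succ q ih => exact hno q ih
      have := hall N
      have h2 : N < 2 ^ N := Nat.lt_two_pow_self
      have h3 : 2 ^ N ≤ 2 ^ (4 * D ^ 2 * N + (32 * D ^ 2 + 2)) := by
        apply Nat.pow_le_pow_right (by norm_num)
        nlinarith
      omega
    obtain ⟨q, hq1, hq2⟩ := hex
    refine ⟨q, ?_, ?_⟩
    · refine le_trans ?_ hq1
      have hR : ∀ m : ℕ, 3 * m ≤ 2 * 2 ^ (2 * m) := by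
        intro m
        induction m with
        | zero => simp
        | succ m ih =>
          have : 2 ^ (2 * (m + 1)) = 4 * 2 ^ (2 * m) := by
            rw [show 2 * (m + 1) = 2 * m + 2 by ring, pow_add]; ring
          have h0 : 1 ≤ 2 ^ (2 * m) := Nat.one_le_two_pow
          omega
      have h3 := hR (2 * (q + 8) * D)
      have h4 : 2 ^ (2 * (2 * (q + 8) * D)) ≤ 2 ^ (2 * (2 * (q + 8) * D) * D) := by
        apply Nat.pow_le_pow_right (by norm_num)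
        exact Nat.le_mul_of_pos_right _ (by omega)
      have h5 : 2 ^ (4 * D ^ 2 * q + (32 * D ^ 2 + 2)) = 4 * 2 ^ (2 * (2 * (q + 8) * D) * D) := by
        rw [show 4 * D ^ 2 * q + (32 * D ^ 2 + 2) = 2 * (2 * (q + 8) * D) * D + 2 by ring, pow_add]
        ring
      omega
    · have h6 : (N : ℝ) < (2 : ℝ) ^ (4 * (D : ℝ) ^ 2 * (q + 1) + (32 * (D : ℝ) ^ 2 + 2)) := by
        have : (N : ℝ) < ((2 ^ (4 * D ^ 2 * (q + 1) + (32 * D ^ 2 + 2)) : ℕ) : ℝ) := by
          exact_mod_cast hq2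
        refine this.trans_eq ?_
        push_cast
        rw [← Real.rpow_natCast]
        push_cast
        rfl
      have h7 : ((2 : ℝ) ^ (4 * (D : ℝ) ^ 2 * (q + 1) + (32 * (D : ℝ) ^ 2 + 2))) ^ (-cc D) ≤
          (N : ℝ) ^ (-cc D) :=
        Real.rpow_le_rpow_of_nonpos hN0 h6.le (by linarith)
      have h8 : ((2 : ℝ) ^ (4 * (D : ℝ) ^ 2 * (q + 1) + (32 * (D : ℝ) ^ 2 + 2))) ^ (-cc D) =
          rho D ^ (q + 1) * (2 : ℝ) ^ (-(cc D * (32 * (D : ℝ) ^ 2 + 2))) := by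
        rw [← Real.rpow_mul (by norm_num)]
        rw [show (4 * (D : ℝ) ^ 2 * (q + 1) + (32 * (D : ℝ) ^ 2 + 2)) * -cc D =
          (-(cc D * (4 * (D : ℝ) ^ 2))) * ((q : ℝ) + 1) + (-(cc D * (32 * (D : ℝ) ^ 2 + 2))) by ring]
        rw [Real.rpow_add (by norm_num), Real.rpow_mul (by norm_num), two_pow_cc hD]
        congr 1
        rw [← Real.rpow_natCast]
        push_cast
        rfl
      rw [h8] at h7
      have h9 : (0 : ℝ) < (2 : ℝ) ^ (cc D * (32 * (D : ℝ) ^ 2 + 2)) :=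
        Real.rpow_pos_of_pos (by norm_num) _
      have h10 : (2 : ℝ) ^ (-(cc D * (32 * (D : ℝ) ^ 2 + 2))) =
          ((2 : ℝ) ^ (cc D * (32 * (D : ℝ) ^ 2 + 2)))⁻¹ := Real.rpow_neg (by norm_num) _
      calc 4 * rho D ^ q = CC D * (rho D ^ (q + 1) *
            (2 : ℝ) ^ (-(cc D * (32 * (D : ℝ) ^ 2 + 2)))) := by
            rw [h10]
            unfold CC
            have : rho D ≠ 0 := by linarith
            field_simp
            ring
        _ ≤ CC D * (N : ℝ) ^ (-cc D) := mul_le_mul_of_nonneg_left h7 (CC_pos hD).le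
  · left
    push Not at hcase
    have h6 : (N : ℝ) < (2 : ℝ) ^ (32 * (D : ℝ) ^ 2 + 2) := by
      have : (N : ℝ) < ((2 ^ (32 * D ^ 2 + 2) : ℕ) : ℝ) := by exact_mod_cast hcase
      refine this.trans_eq ?_
      push_cast
      rw [← Real.rpow_natCast]
      push_cast
      rfl
    have h7 : ((2 : ℝ) ^ (32 * (D : ℝ) ^ 2 + 2)) ^ (-cc D) ≤ (N : ℝ) ^ (-cc D) :=
      Real.rpow_le_rpow_of_nonpos hN0 h6.le (by linarith)
    rw [← Real.rpow_mul (by norm_num)] at h7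
    have h9 : (0 : ℝ) < (2 : ℝ) ^ (cc D * (32 * (D : ℝ) ^ 2 + 2)) :=
      Real.rpow_pos_of_pos (by norm_num) _
    have h10 : (2 : ℝ) ^ ((32 * (D : ℝ) ^ 2 + 2) * -cc D) =
        ((2 : ℝ) ^ (cc D * (32 * (D : ℝ) ^ 2 + 2)))⁻¹ := by
      rw [← Real.rpow_neg (by norm_num)]
      congr 1
      ring
    rw [h10] at h7
    calc (1 : ℝ) / 2 ≤ 4 / rho D := by
          rw [le_div_iff₀ (by linarith)]
          linarith
      _ = CC D * ((2 : ℝ) ^ (cc D * (32 * (D : ℝ) ^ 2 + 2)))⁻¹ := by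
          unfold CC
          have : rho D ≠ 0 := by linarith
          field_simp
      _ ≤ CC D * (N : ℝ) ^ (-cc D) := mul_le_mul_of_nonneg_left h7 (CC_pos hD).le

/-- The core: shortening of `(r, n)`, `n ≥ N`, to at most `N` elements, with control of the balance
constant, keeping a property `Φ` which is kept when the initial, the final and one more window is
kept. -/
theorem core (hPOS : S_POS) (hSTEP : S_STEP) (hDUAL : S_DUAL) (hMAP : S_MAP) (hLOCB : S_LOCB)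
    (hLOCT : S_LOCT) (hCUT : S_CUT) (hPIG : S_PIG) (hRED : S_RED) (hCMP : S_CMP)
    {D : ℕ} (hD : 1 ≤ D) (N : ℕ) (hN : 1 ≤ N) (hlow : ¬ 1 / 2 ≤ CC D * (N : ℝ) ^ (-cc D))
    (r : ℕ → ℕ → Prop) (n : ℕ) (hr : Band D r) (hn : N ≤ n) (Φ : (ℕ → ℕ → Prop) → ℕ → Prop)
    (hΦ : ∀ R, 12 * D ≤ R → R ≤ n → ∃ k, k + R ≤ n ∧ ∀ (r' : ℕ → ℕ → Prop) (n' k' : ℕ),
      Band D r' → Loc R r' n' r n → k' + R ≤ n' → Win R r' k' r k → Φ r' n') :
    ∃ (r' : ℕ → ℕ → Prop) (n' : ℕ), Band D r' ∧ 1 ≤ n' ∧ n' ≤ N ∧ Φ r' n' ∧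
      bal r' n' ≤ bal r n + CC D * (N : ℝ) ^ (-cc D) := by
  rcases numeric hD N hN with h | ⟨q, hq1, hq2⟩
  · exact absurd h hlow
  · have hR1 : D ≤ 2 * (q + 8) * D := by nlinarith
    have hR2 : 12 * D ≤ 2 * (q + 8) * D := by nlinarith
    have hR3 : 2 * (q + 2) * D ≤ 2 * (q + 8) * D := by nlinarith
    have hRn : 2 * (q + 8) * D ≤ n := by
      have : 2 * (q + 8) * D ≤ N := by omega
      omega
    obtain ⟨k, hk, hkeep⟩ := hΦ _ hR2 hRn
    obtain ⟨r', n', k', hb, hloc, hk', hwin, hn'⟩ := hRED hCUT hPIG D _ n k r hD hR1 hr hk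
    refine ⟨r', n', hb, ?_, le_trans hn' hq1, hkeep r' n' k' hb hloc hk' hwin, ?_⟩
    · have := hloc.len'
      omega
    · have := hCMP hPOS hMAP hLOCB hLOCT hSTEP hDUAL D _ q n n' r r' hD hR3 hr hb hloc
      linarith

end Run7.h640.FP
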