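import Mathlib
import Pool.Agent.Run7.h640.FP.Core

/-! Project FP: assembly for posets outside `𝒟`. -/

set_option autoImplicit false

open Finset
open scoped Classical
open Pool.Agent.H13R3.WB

namespace Run7.h640.FP

/-- the starting result on elements with many incomparable elements -/
def S_ID : Prop := ∃ B : ℝ, 0 < B ∧ ∀ ε : ℝ, 0 < ε → ε ≤ 1 / 2 →
      ∀ (P : Type) [Fintype P] [PartialOrder P] (x : P),
      Real.exp (B * Real.log (2 / ε) ^ 3 / ε ^ 4) ≤ Nat.card {y : P // ¬ x ≤ y ∧ ¬ y ≤ x} →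
      1 / 2 - ε ≤ balance P

/-- the pieces -/
structure All : Prop where
  pos : S_POS
  step : S_STEP
  dual : S_DUAL
  map : S_MAP
  conn : S_CONN
  locb : S_LOCB
  loct : S_LOCT
  cut : S_CUT
  pig : S_PIG
  red : S_RED
  cmp : S_CMP
  top : S_TOP
  back : S_BACK

lemma FeatG_of_equiv {V W : Type} (e : V ≃ W) (I : V → V → Prop) (J : W → W → Prop)
    (h : ∀ x y, I x y ↔ J (e x) (e y)) : FeatG I → FeatG J := by
  rintro (⟨x, y, h1, h2⟩ | ⟨a, b, c, h1, h2, h3⟩ | ⟨x, a, b, c, h1, h2, h3, h4, h5, h6⟩ |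
    ⟨a, b, c, d, h1, h2, h3, h4, h5, h6⟩)
  · refine Or.inl ⟨e x, e y, (h _ _).mp h1, ?_⟩
    intro z hz1 hz2
    have := h2 (e.symm z) (fun hh => hz1 (by rw [← hh]; simp)) (fun hh => hz2 (by rw [← hh]; simp))
    rw [h, h] at this
    simpa using this
  · exact Or.inr (Or.inl ⟨e a, e b, e c, (h _ _).mp h1, (h _ _).mp h2, (h _ _).mp h3⟩)
  · exact Or.inr (Or.inr (Or.inl ⟨e x, e a, e b, e c, (h _ _).mp h1, (h _ _).mp h2, (h _ _).mp h3,
      fun hh => h4 (e.injective hh), fun hh => h5 (e.injective hh),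
      fun hh => h6 (e.injective hh)⟩))
  · exact Or.inr (Or.inr (Or.inr ⟨e a, e b, e c, e d, (h _ _).mp h1, (h _ _).mp h2, (h _ _).mp h3,
      fun hh => h4 (e.injective hh), fun hh => h5 (e.injective hh),
      fun hh => h6 (e.injective hh)⟩))

lemma IncP_iff {P : Type} [PartialOrder P] {n : ℕ} (r : ℕ → ℕ → Prop) (e : P ≃ Fin n)
    (he : ∀ x y : P, r (e x : ℕ) (e y : ℕ) ↔ x < y) (x y : P) :
    IncP x y ↔ Inc r ((e x : Fin n) : ℕ) ((e y : Fin n) : ℕ) := by
  unfold IncP Inc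
  rw [he, he]
  constructor
  · rintro ⟨h1, h2⟩
    refine ⟨fun h => h1 (by rw [e.injective (Fin.ext h)]), fun h => h1 h.le, fun h => h2 h.le⟩
  · rintro ⟨h1, h2, h3⟩
    have hne : x ≠ y := fun h => h1 (by rw [h])
    exact ⟨fun h => h2 (lt_of_le_of_ne h hne), fun h => h3 (lt_of_le_of_ne h hne.symm)⟩

lemma feat_iff {P : Type} [PartialOrder P] {n : ℕ} (r : ℕ → ℕ → Prop) (e : P ≃ Fin n)
    (he : ∀ x y : P, r (e x : ℕ) (e y : ℕ) ↔ x < y) :
    FeatG (V := P) (fun x y => IncP x y) ↔ Feat r n := by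
  constructor
  · exact FeatG_of_equiv e _ _ (IncP_iff r e he)
  · refine FeatG_of_equiv e.symm _ _ (fun x y => ?_)
    rw [IncP_iff r e he]
    simp

lemma balance_le_half (hPOS : S_POS) (hCONN : S_CONN) (P : Type) [Fintype P] [PartialOrder P] :
    balance P ≤ 1 / 2 := by
  unfold balance
  apply Real.iSup_le _ (by norm_num)
  rintro ⟨x, y⟩
  simp only
  by_cases hxy : x = y
  · subst hxy
    rw [prob_self]
    norm_num
  · rw [hCONN P x y, hCONN P y x]
    have : IsStrictOrder P (fun a b : P => a < b) :=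
      { irrefl := fun a => lt_irrefl a, trans := fun a b c => lt_trans }
    obtain ⟨h0, h1⟩ := hPOS P (fun a b : P => a < b) univ
    have h2 := h1 x (mem_univ _) y (mem_univ _) hxy
    unfold pr
    have h3 : (0 : ℝ) < (En (fun a b : P => a < b) univ : ℝ) := by exact_mod_cast h0
    have h4 : ((Fn (fun a b : P => a < b) x y univ : ℕ) : ℝ) +
        ((Fn (fun a b : P => a < b) y x univ : ℕ) : ℝ) = (En (fun a b : P => a < b) univ : ℕ) := by
      exact_mod_cast h2
    have h5 : ((Fn (fun a b : P => a < b) x y univ : ℕ) : ℝ) / (En (fun a b : P => a < b) univ : ℝ) +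
        ((Fn (fun a b : P => a < b) y x univ : ℕ) : ℝ) / (En (fun a b : P => a < b) univ : ℝ) = 1 := by
      rw [← add_div, h4, div_self h3.ne']
    rcases le_total (((Fn (fun a b : P => a < b) x y univ : ℕ) : ℝ) /
      (En (fun a b : P => a < b) univ : ℝ)) (((Fn (fun a b : P => a < b) y x univ : ℕ) : ℝ) /
      (En (fun a b : P => a < b) univ : ℝ)) with h | h
    · rw [min_eq_left h]; linarith
    · rw [min_eq_right h]; linarith

lemma balance_nonneg (P : Type) [Fintype P] [PartialOrder P] : 0 ≤ balance P := by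
  unfold balance
  apply Real.iSup_nonneg
  intro p
  unfold prob
  exact le_min (by positivity) (by positivity)

/-- the order of an antichain of `w` elements -/
def anti (w : ℕ) (i j : ℕ) : Prop := i + w ≤ j ∧ i < j

lemma band_anti (w : ℕ) : Band w (anti w) where
  lt := fun _ _ h => h.2
  trans := fun i j k h1 h2 => ⟨by have := h1.1; have := h2.1; omega, h1.2.trans h2.2⟩
  far := fun _ _ h1 h2 => ⟨h1, h2⟩

lemma inc_anti {w i j : ℕ} (hi : i < w) (hj : j < w) (hij : i ≠ j) : Inc (anti w) i j := by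
  refine ⟨hij, fun h => ?_, fun h => ?_⟩
  · have := h.1; omega
  · have := h.1; omega

/-- the two-element antichain -/
lemma exists_two (H : All) (hFEB : S_FEB) : ∃ (Q : Type) (_ : Fintype Q) (_ : PartialOrder Q),
    Fintype.card Q = 2 ∧ ¬ InD Q ∧ (∃ x y : Q, IncP x y) := by
  obtain ⟨Q, i1, i2, e, h1, h2, h3⟩ := H.back H.conn H.map 2 2 (anti 2) (band_anti 2)
  have h01 : IncP (e.symm 0) (e.symm 1) := by
    rw [IncP_iff (anti 2) e h2]
    simp only [Equiv.apply_symm_apply]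
    exact inc_anti (by simp) (by simp) (by simp)
  refine ⟨Q, i1, i2, h1, ?_, ⟨_, _, h01⟩⟩
  intro hD
  apply hFEB Q hD
  left
  refine ⟨e.symm 0, e.symm 1, h01, ?_⟩
  intro z hz1 hz2
  exfalso
  have h4 : e z = 0 ∨ e z = 1 := by
    have := (e z).2
    rcases Nat.lt_or_ge (e z : ℕ) 1 with h | h
    · left; apply Fin.ext; simp; omega
    · right; apply Fin.ext; simp; omega
  rcases h4 with h | h
  · exact hz1 (by rw [← h]; simp)
  · exact hz2 (by rw [← h]; simp)

/-- thin posets: one of the alternatives of the starting result -/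
lemma thin_or (hID : S_ID) (ε : ℝ) (hε : 0 < ε) (hε2 : ε ≤ 1 / 2) :
    ∃ K : ℕ, ∀ (P : Type) [Fintype P] [PartialOrder P], balance P < 1 / 2 - ε →
      ∀ x : P, Nat.card {y : P // ¬ x ≤ y ∧ ¬ y ≤ x} ≤ K := by
  obtain ⟨B, hB, h⟩ := hID
  refine ⟨⌈Real.exp (B * Real.log (2 / ε) ^ 3 / ε ^ 4)⌉₊, ?_⟩
  intro P _ _ hP x
  by_contra hx
  push Not at hx
  have := h ε hε hε2 P x ?_
  · linarith
  · refine (Nat.le_ceil _).trans ?_
    exact_mod_cast hx.le

/-- General assembly. `Ψ` a property of posets, `Φ` the same property of `(r, n)`. -/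
theorem general (H : All) (hID : S_ID) (ε : ℝ) (hε : 0 < ε) (hε2 : ε ≤ 1 / 2)
    (Ψ : (P : Type) → [PartialOrder P] → Prop) (Φ : (ℕ → ℕ → Prop) → ℕ → Prop)
    (htr : ∀ (P : Type) [PartialOrder P] [Fintype P] [Nonempty P] (n : ℕ) (r : ℕ → ℕ → Prop)
      (e : P ≃ Fin n), (∀ x y : P, r (e x : ℕ) (e y : ℕ) ↔ x < y) → (Ψ P ↔ Φ r n))
    (hΦ : ∀ (D R n : ℕ) (r : ℕ → ℕ → Prop), 1 ≤ D → 12 * D ≤ R → R ≤ n → Band D r →
      Φ r n → ∃ k, k + R ≤ n ∧ ∀ (r' : ℕ → ℕ → Prop) (n' k' : ℕ), Band D r' → Loc R r' n' r n →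
        k' + R ≤ n' → Win R r' k' r k → Φ r' n')
    (m : ℕ) (hm : 1 ≤ m)
    (hsmall : ∃ (Q : Type) (_ : Fintype Q) (_ : PartialOrder Q) (_ : Nonempty Q),
      Fintype.card Q = m ∧ Ψ Q)
    (href : ∃ (Q : Type) (_ : Fintype Q) (_ : PartialOrder Q) (_ : Nonempty Q),
      Ψ Q ∧ balance Q ≤ 1 / 2 - ε) :
    ∃ C c : ℝ, 0 < C ∧ 0 < c ∧ ∀ (P : Type) [Fintype P] [PartialOrder P] [Nonempty P], Ψ P →
      ∀ n : ℕ, m ≤ n → ∃ (Q : Type) (_ : Fintype Q) (_ : PartialOrder Q) (_ : Nonempty Q),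
        Fintype.card Q ≤ n ∧ Ψ Q ∧ balance Q ≤ balance P + C * (n : ℝ) ^ (-c) := by
  obtain ⟨K, hK⟩ := thin_or hID ε hε hε2
  obtain ⟨Q1, i1, i2, i3, hQ1, hQ1'⟩ := hsmall
  obtain ⟨Q2, j1, j2, j3, hQ2, hQ2'⟩ := href
  set D := 2 * K + 2 with hDdef
  have hD : 1 ≤ D := by omega
  have hc := cc_pos hD
  have hC := CC_pos hD
  -- the constant also covers the reference poset
  set M : ℕ := Fintype.card Q2 with hM
  have hM1 : 1 ≤ M := Fintype.card_pos
  refine ⟨max (CC D) ((M : ℝ) ^ (cc D) / 2), cc D, lt_of_lt_of_le hC (le_max_left _ _), hc, ?_⟩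
  intro P _ _ _ hP n hn
  have hn1 : 1 ≤ n := hm.trans hn
  have hn0 : (0 : ℝ) < n := by exact_mod_cast hn1
  have hnc : (0 : ℝ) < (n : ℝ) ^ (-cc D) := Real.rpow_pos_of_pos hn0 _
  have hmax1 : CC D * (n : ℝ) ^ (-cc D) ≤ max (CC D) ((M : ℝ) ^ (cc D) / 2) * (n : ℝ) ^ (-cc D) :=
    mul_le_mul_of_nonneg_right (le_max_left _ _) hnc.le
  have hmax2 : (M : ℝ) ^ (cc D) / 2 * (n : ℝ) ^ (-cc D) ≤
      max (CC D) ((M : ℝ) ^ (cc D) / 2) * (n : ℝ) ^ (-cc D) :=
    mul_le_mul_of_nonneg_right (le_max_right _ _) hnc.le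
  have hbP := balance_nonneg P
  -- if the error term is at least 1/2, use the small poset
  by_cases hbig : 1 / 2 ≤ max (CC D) ((M : ℝ) ^ (cc D) / 2) * (n : ℝ) ^ (-cc D)
  · refine ⟨Q1, i1, i2, i3, by omega, hQ1', ?_⟩
    have := balance_le_half H.pos H.conn Q1
    linarith
  · push Not at hbig
    by_cases hcard : Fintype.card P ≤ n
    · have hpos := mul_pos (lt_of_lt_of_le hC (le_max_left (CC D) ((M : ℝ) ^ (cc D) / 2))) hnc
      exact ⟨P, inferInstance, inferInstance, inferInstance, hcard, hP, by linarith⟩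
    · push Not at hcard
      by_cases hbal : balance P < 1 / 2 - ε
      · obtain ⟨r, e, hband, he, hbalr⟩ := H.top H.conn H.map P K (hK P hbal)
        have hΦr : Φ r (Fintype.card P) := (htr P _ r e he).mp hP
        obtain ⟨r', n', hb', hn1', hn', hΦ', hbal'⟩ := core H.pos H.step H.dual H.map H.locb H.loct
          H.cut H.pig H.red H.cmp hD n hn1 (by push Not; linarith) r (Fintype.card P) hband hcard.le Φ
          (fun R hR1 hR2 => hΦ D R _ r hD hR1 hR2 hband hΦr)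
        obtain ⟨Q, k1, k2, e', hcQ, he', hbQ⟩ := H.back H.conn H.map D n' r' hb'
        have hne : Nonempty Q := by
          rw [← Fintype.card_pos_iff, hcQ]
          omega
        refine ⟨Q, k1, k2, hne, by omega, (htr Q n' r' e' he').mpr hΦ', ?_⟩
        rw [hbQ, hbalr]
        linarith
      · push Not at hbal
        refine ⟨Q2, j1, j2, j3, ?_, hQ2, ?_⟩
        · -- otherwise the error term is at least 1/2
          by_contra hlt
          push Not at hlt
          have h1 : (n : ℝ) ≤ M := by exact_mod_cast hlt.le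
          have h2 : (M : ℝ) ^ (-cc D) ≤ (n : ℝ) ^ (-cc D) :=
            Real.rpow_le_rpow_of_nonpos hn0 h1 (by linarith)
          have hM0 : (0 : ℝ) < M := by exact_mod_cast hM1
          have h3 : (M : ℝ) ^ (cc D) / 2 * (M : ℝ) ^ (-cc D) = 1 / 2 := by
            rw [Real.rpow_neg hM0.le]
            have : (M : ℝ) ^ (cc D) ≠ 0 := (Real.rpow_pos_of_pos hM0 _).ne'
            field_simp
          have h4 : (M : ℝ) ^ (cc D) / 2 * (M : ℝ) ^ (-cc D) ≤
              (M : ℝ) ^ (cc D) / 2 * (n : ℝ) ^ (-cc D) :=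
            mul_le_mul_of_nonneg_left h2 (by positivity)
          linarith
        · have hpos := mul_pos
            (lt_of_lt_of_le hC (le_max_left (CC D) ((M : ℝ) ^ (cc D) / 2))) hnc
          linarith

/-- the part (1) for posets outside `𝒟` -/
theorem outsideD (H : All) (hID : S_ID) (hFEA : S_FEA) (hFEB : S_FEB) (hKEEP : S_KEEP)
    (href : ∃ (Q : Type) (_ : Fintype Q) (_ : PartialOrder Q),
      Fintype.card Q = 41 ∧ ¬ InD Q ∧ balance Q ≤ 2 / 5) :
    ∃ C c : ℝ, 0 < C ∧ 0 < c ∧ ∀ (P : Type) [Fintype P] [PartialOrder P] [Nonempty P], ¬ InD P →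
      ∀ n : ℕ, 2 ≤ n → ∃ (Q : Type) (_ : Fintype Q) (_ : PartialOrder Q) (_ : Nonempty Q),
        Fintype.card Q ≤ n ∧ ¬ InD Q ∧ balance Q ≤ balance P + C * (n : ℝ) ^ (-c) := by
  refine general H hID (1 / 10) (by norm_num) (by norm_num) (fun P _ => ¬ InD P)
    (fun r n => Feat r n) ?_ ?_ 2 (by norm_num) ?_ ?_
  · intro P _ _ _ n r e he
    rw [← feat_iff r e he]
    constructor
    · intro h
      by_contra h'
      exact h (hFEA P h')
    · intro h h'
      exact hFEB P h' h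
  · intro D R n r hD hR hn hb hf
    exact hKEEP D R n r hD hR hn hb hf
  · obtain ⟨Q, i1, i2, h1, h2, -⟩ := exists_two H hFEB
    exact ⟨Q, i1, i2, by rw [← Fintype.card_pos_iff, h1]; norm_num, h1, h2⟩
  · obtain ⟨Q, i1, i2, h1, h2, h3⟩ := href
    exact ⟨Q, i1, i2, by rw [← Fintype.card_pos_iff, h1]; norm_num, h2, by linarith⟩

end Run7.h640.FP
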