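import Mathlib
import Pool.Agent.Run7.h640.FP.Asm

/-! Project FP: assembly for posets of width `w`, and for posets which are not chains. -/

set_option autoImplicit false

open Finset
open scoped Classical
open Pool.Agent.H13R3.WB

namespace Run7.h640.FP

/-- the width of the finite poset `P` is `w` -/
def Width (w : ℕ) (P : Type) [PartialOrder P] : Prop :=
  (∃ s : Finset P, s.card = w ∧ IsAntichain (· ≤ ·) (s : Set P)) ∧
    ∀ s : Finset P, IsAntichain (· ≤ ·) (s : Set P) → s.card ≤ w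

lemma width_iff {P : Type} [PartialOrder P] [Fintype P] (w : ℕ) {n : ℕ} (r : ℕ → ℕ → Prop)
    (e : P ≃ Fin n) (he : ∀ x y : P, r (e x : ℕ) (e y : ℕ) ↔ x < y) : Width w P ↔ Wid w r n := by
  have hinj : Function.Injective (fun x : P => ((e x : Fin n) : ℕ)) :=
    fun x y h => e.injective (Fin.ext h)
  have hinc : ∀ x y : P, x ≠ y → ((¬ x ≤ y ∧ ¬ y ≤ x) ↔
      Inc r ((e x : Fin n) : ℕ) ((e y : Fin n) : ℕ)) := fun x y _ => IncP_iff r e he x y
  -- images
  have him : ∀ s : Finset P, IsAntichain (· ≤ ·) (s : Set P) →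
      (s.image fun x : P => ((e x : Fin n) : ℕ)) ⊆ range n ∧
      (s.image fun x : P => ((e x : Fin n) : ℕ)).card = s.card ∧
      ∀ a ∈ (s.image fun x : P => ((e x : Fin n) : ℕ)),
        ∀ b ∈ (s.image fun x : P => ((e x : Fin n) : ℕ)), a ≠ b → Inc r a b := by
    intro s hs
    refine ⟨?_, card_image_of_injective _ hinj, ?_⟩
    · intro a ha
      rw [mem_image] at ha
      obtain ⟨x, _, rfl⟩ := ha
      rw [mem_range]
      exact (e x).2
    · intro a ha b hb hab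
      rw [mem_image] at ha hb
      obtain ⟨x, hx, rfl⟩ := ha
      obtain ⟨y, hy, rfl⟩ := hb
      have hne : x ≠ y := fun h => hab (by rw [h])
      exact (hinc x y hne).mp ⟨hs hx hy hne, hs hy hx hne.symm⟩
  have hpre : ∀ s : Finset ℕ, s ⊆ range n → (∀ a ∈ s, ∀ b ∈ s, a ≠ b → Inc r a b) →
      ∃ t : Finset P, t.card = s.card ∧ IsAntichain (· ≤ ·) (t : Set P) := by
    intro s hs hs'
    refine ⟨univ.filter (fun x : P => ((e x : Fin n) : ℕ) ∈ s), ?_, ?_⟩
    · rw [← card_image_of_injective _ hinj]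
      congr 1
      ext a
      rw [mem_image]
      constructor
      · rintro ⟨x, hx, rfl⟩
        exact (mem_filter.mp hx).2
      · intro ha
        have ha' := mem_range.mp (hs ha)
        refine ⟨e.symm ⟨a, ha'⟩, ?_, by simp⟩
        rw [mem_filter]
        exact ⟨mem_univ _, by simpa using ha⟩
    · intro x hx y hy hxy
      rw [mem_coe, mem_filter] at hx hy
      have hne : ((e x : Fin n) : ℕ) ≠ ((e y : Fin n) : ℕ) := fun h => hxy (hinj h)
      exact ((hinc x y hxy).mpr (hs' _ hx.2 _ hy.2 hne)).1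
  constructor
  · rintro ⟨⟨s, hs1, hs2⟩, h3⟩
    refine ⟨⟨s.image fun x : P => ((e x : Fin n) : ℕ), (him s hs2).1, ?_, (him s hs2).2.2⟩, ?_⟩
    · rw [(him s hs2).2.1, hs1]
    · intro s hs hs'
      obtain ⟨t, ht1, ht2⟩ := hpre s hs hs'
      rw [← ht1]
      exact h3 t ht2
  · rintro ⟨⟨s, hs1, hs2, hs3⟩, h3⟩
    obtain ⟨t, ht1, ht2⟩ := hpre s hs1 hs3
    refine ⟨⟨t, by rw [ht1, hs2], ht2⟩, ?_⟩
    intro s hs
    have := h3 _ (him s hs).1 (him s hs).2.2
    rwa [(him s hs).2.1] at this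

/-- the antichain of `w` elements -/
lemma exists_anti (H : All) (w : ℕ) : ∃ (Q : Type) (_ : Fintype Q) (_ : PartialOrder Q),
    Fintype.card Q = w ∧ Width w Q := by
  obtain ⟨Q, i1, i2, e, h1, h2, h3⟩ := H.back H.conn H.map w w (anti w) (band_anti w)
  refine ⟨Q, i1, i2, h1, (width_iff w (anti w) e h2).mpr ⟨⟨range w, subset_rfl, by simp, ?_⟩, ?_⟩⟩
  · intro a ha b hb hab
    exact inc_anti (mem_range.mp ha) (mem_range.mp hb) hab
  · intro s hs _
    simpa using card_le_card hs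

/-- the part (1) for posets of width `w` -/
theorem widthW (H : All) (hID : S_ID) (hKEEPW : S_KEEPW) (w : ℕ) (hw : 1 ≤ w) (ε : ℝ) (hε : 0 < ε)
    (hε2 : ε ≤ 1 / 2) (href : ∃ (Q : Type) (_ : Fintype Q) (_ : PartialOrder Q),
      Width w Q ∧ balance Q ≤ 1 / 2 - ε) :
    ∃ C c : ℝ, 0 < C ∧ 0 < c ∧ ∀ (P : Type) [Fintype P] [PartialOrder P], Width w P →
      ∀ n : ℕ, w ≤ n → ∃ (Q : Type) (_ : Fintype Q) (_ : PartialOrder Q),
        Fintype.card Q ≤ n ∧ Width w Q ∧ balance Q ≤ balance P + C * (n : ℝ) ^ (-c) := by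
  have hne : ∀ (P : Type) [PartialOrder P], Width w P → Nonempty P := by
    intro P _ h
    obtain ⟨⟨s, hs, -⟩, -⟩ := h
    have : 0 < s.card := by omega
    obtain ⟨x, -⟩ := card_pos.mp this
    exact ⟨x⟩
  obtain ⟨C, c, hC, hc, h⟩ := general H hID ε hε hε2 (fun P _ => Width w P)
    (fun r n => Wid w r n)
    (fun P _ _ _ n r e he => width_iff w r e he)
    (fun D R n r hD hR hn hb hf => hKEEPW D R n w r hD (by omega) hn hb hf) w hw
    (by
      obtain ⟨Q, i1, i2, h1, h2⟩ := exists_anti H w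
      exact ⟨Q, i1, i2, hne Q h2, h1, h2⟩)
    (by
      obtain ⟨Q, i1, i2, h1, h2⟩ := href
      exact ⟨Q, i1, i2, hne Q h1, h1, h2⟩)
  refine ⟨C, c, hC, hc, ?_⟩
  intro P _ _ hP n hn
  have := hne P hP
  obtain ⟨Q, i1, i2, -, h1, h2, h3⟩ := h P hP n hn
  exact ⟨Q, i1, i2, h1, h2, h3⟩

/-- nonchains survive if one window is kept -/
lemma keepC (D R n : ℕ) (r : ℕ → ℕ → Prop) (hD : 1 ≤ D) (hR : 12 * D ≤ R) (hn : R ≤ n)
    (hb : Band D r) (hf : ∃ x y, x < n ∧ y < n ∧ Inc r x y) :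
    ∃ k, k + R ≤ n ∧ ∀ (r' : ℕ → ℕ → Prop) (n' k' : ℕ), Band D r' → Loc R r' n' r n →
      k' + R ≤ n' → Win R r' k' r k → ∃ x y, x < n' ∧ y < n' ∧ Inc r' x y := by
  obtain ⟨x, y, hx, hy, h1, h2, h3⟩ := hf
  wlog hxy : x < y generalizing x y
  · exact this y x hy hx h1.symm h3 h2 (by omega)
  have hyD : y < x + D := by
    by_contra h
    exact h2 (hb.far x y (by omega) hxy)
  refine ⟨min x (n - R), by omega, ?_⟩
  intro r' n' k' _ _ hk' hw
  set k := min x (n - R) with hk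
  have hw1 := hw (x - k) (y - k) (by omega) (by omega)
  have hw2 := hw (y - k) (x - k) (by omega) (by omega)
  rw [show k + (x - k) = x by omega, show k + (y - k) = y by omega] at hw1
  rw [show k + (x - k) = x by omega, show k + (y - k) = y by omega] at hw2
  refine ⟨k' + (x - k), k' + (y - k), by omega, by omega, by omega, ?_, ?_⟩
  · rw [hw1]; exact h2
  · rw [hw2]; exact h3

/-- the part (1) for posets which are not chains -/
theorem nonchain (H : All) (hID : S_ID) (hFEB : S_FEB)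
    (href : ∃ (Q : Type) (_ : Fintype Q) (_ : PartialOrder Q),
      (∃ x y : Q, IncP x y) ∧ balance Q ≤ 2 / 5) :
    ∃ C c : ℝ, 0 < C ∧ 0 < c ∧ ∀ (P : Type) [Fintype P] [PartialOrder P],
      (∃ x y : P, ¬ x ≤ y ∧ ¬ y ≤ x) →
      ∀ n : ℕ, 2 ≤ n → ∃ (Q : Type) (_ : Fintype Q) (_ : PartialOrder Q),
        Fintype.card Q ≤ n ∧ (∃ x y : Q, ¬ x ≤ y ∧ ¬ y ≤ x) ∧
          balance Q ≤ balance P + C * (n : ℝ) ^ (-c) := by
  obtain ⟨C, c, hC, hc, h⟩ := general H hID (1 / 10) (by norm_num) (by norm_num)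
    (fun P _ => ∃ x y : P, IncP x y)
    (fun r n => ∃ x y, x < n ∧ y < n ∧ Inc r x y)
    (by
      intro P _ _ _ n r e he
      constructor
      · rintro ⟨x, y, hxy⟩
        exact ⟨_, _, (e x).2, (e y).2, (IncP_iff r e he x y).mp hxy⟩
      · rintro ⟨x, y, hx, hy, hxy⟩
        refine ⟨e.symm ⟨x, hx⟩, e.symm ⟨y, hy⟩, ?_⟩
        rw [IncP_iff r e he]
        simpa using hxy)
    (fun D R n r hD hR hn hb hf => keepC D R n r hD hR hn hb hf) 2 (by norm_num)
    (by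
      obtain ⟨Q, i1, i2, h1, -, h2⟩ := exists_two H hFEB
      exact ⟨Q, i1, i2, ⟨h2.choose⟩, h1, h2⟩)
    (by
      obtain ⟨Q, i1, i2, h1, h2⟩ := href
      exact ⟨Q, i1, i2, ⟨h1.choose⟩, h1, by linarith⟩)
  refine ⟨C, c, hC, hc, ?_⟩
  intro P _ _ hP n hn
  have : Nonempty P := ⟨hP.choose⟩
  obtain ⟨Q, i1, i2, -, h1, h2, h3⟩ := h P hP n hn
  exact ⟨Q, i1, i2, h1, h2, h3⟩

end Run7.h640.FP
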