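import Mathlib
import Pool.Agent.Run7.h640.FP.Iface

/-! Project FP, pieces FEA and FEB: the class `𝒟` and the components of the incomparability graph. -/

set_option autoImplicit false

open Finset
open scoped Classical
open Pool.Agent.H13R3.WB

namespace Run7.h640.FP

private lemma fe_symm {P : Type} [PartialOrder P] {x y : P} (h : IncP x y) : IncP y x :=
  ⟨h.2, h.1⟩

private lemma fe_ne {P : Type} [PartialOrder P] {x y : P} (h : IncP x y) : x ≠ y := by
  rintro rfl
  exact h.1 le_rfl

/-- features are transported along injective maps keeping incomparability, if no neighbours arise -/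
private lemma fe_map {V W : Type} (I : V → V → Prop) (J : W → W → Prop) (f : V → W)
    (hf : Function.Injective f) (h1 : ∀ x y, I x y → J (f x) (f y))
    (h2 : ∀ x w, J (f x) w → ∃ z, f z = w ∧ I x z) (h : FeatG I) : FeatG J := by
  rcases h with ⟨x, y, hxy, hz⟩ | ⟨a, b, c, hab, hbc, hac⟩ | ⟨x, a, b, c, ha, hb, hc, n1, n2, n3⟩ |
    ⟨a, b, c, d, hab, hbc, hcd, n1, n2, n3⟩
  · refine Or.inl ⟨f x, f y, h1 _ _ hxy, ?_⟩
    intro w hwx hwy
    refine ⟨fun hw => ?_, fun hw => ?_⟩
    · obtain ⟨z, rfl, hz'⟩ := h2 _ _ hw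
      exact (hz z (fun h => hwx (by rw [h])) (fun h => hwy (by rw [h]))).1 hz'
    · obtain ⟨z, rfl, hz'⟩ := h2 _ _ hw
      exact (hz z (fun h => hwx (by rw [h])) (fun h => hwy (by rw [h]))).2 hz'
  · exact Or.inr (Or.inl ⟨f a, f b, f c, h1 _ _ hab, h1 _ _ hbc, h1 _ _ hac⟩)
  · exact Or.inr (Or.inr (Or.inl ⟨f x, f a, f b, f c, h1 _ _ ha, h1 _ _ hb, h1 _ _ hc,
      hf.ne n1, hf.ne n2, hf.ne n3⟩))
  · exact Or.inr (Or.inr (Or.inr ⟨f a, f b, f c, f d, h1 _ _ hab, h1 _ _ hbc, h1 _ _ hcd,
      hf.ne n1, hf.ne n2, hf.ne n3⟩))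

/-- features and order isomorphisms -/
private lemma fe_iso {P Q : Type} [PartialOrder P] [PartialOrder Q] (e : P ≃o Q)
    (h : FeatG (V := P) (fun x y => IncP x y)) : FeatG (V := Q) (fun x y => IncP x y) := by
  refine fe_map _ _ e e.injective ?_ ?_ h
  · intro x y hxy
    exact ⟨fun h => hxy.1 (e.le_iff_le.mp h), fun h => hxy.2 (e.le_iff_le.mp h)⟩
  · intro x w hw
    refine ⟨e.symm w, e.apply_symm_apply w, ?_, ?_⟩
    · intro h
      exact hw.1 (by rw [← e.le_iff_le, e.apply_symm_apply] at h; exact h)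
    · intro h
      exact hw.2 (by rw [← e.le_iff_le, e.apply_symm_apply] at h; exact h)

private lemma fe_InD_iso {P Q : Type} [PartialOrder P] [PartialOrder Q] (h : InD P) (e : P ≃o Q) :
    InD Q := by
  cases h with
  | one _ h => exact InD.one Q ⟨e.symm.trans h.some⟩
  | three _ h => exact InD.three Q ⟨e.symm.trans h.some⟩
  | sum A B _ hA hB h => exact InD.sum A B Q hA hB ⟨e.symm.trans h.some⟩

/-- an initial part below everything else splits off -/
private lemma fe_split {P : Type} [PartialOrder P] (S : P → Prop)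
    (h : ∀ a b, S a → ¬ S b → a < b) : Nonempty (P ≃o ({x // S x} ⊕ₗ {x // ¬ S x})) := by
  refine ⟨{ toEquiv := (Equiv.sumCompl S).symm.trans toLex, map_rel_iff' := ?_ }⟩
  intro a b
  by_cases ha : S a <;> by_cases hb : S b
  · simp [Equiv.sumCompl_symm_apply_of_pos, ha, hb]
  · simp [Equiv.sumCompl_symm_apply_of_pos, Equiv.sumCompl_symm_apply_of_neg, ha, hb,
      (h a b ha hb).le]
  · simp [Equiv.sumCompl_symm_apply_of_pos, Equiv.sumCompl_symm_apply_of_neg, ha, hb,
      (h b a hb ha).not_ge]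
  · simp [Equiv.sumCompl_symm_apply_of_neg, ha, hb]

/-- the incomparability graph of a sum: neighbours are on the same side -/
theorem prove_FEB : S_FEB := by
  intro P _ h
  induction h with
  | one P e =>
    intro hF
    obtain ⟨e⟩ := e
    have hI : ∀ x y : P, ¬ IncP x y := by
      intro x y hxy
      exact hxy.1 (e.le_iff_le.mp (by rw [Subsingleton.elim (e x) (e y)]))
    rcases hF with ⟨x, y, hxy, _⟩ | ⟨a, b, c, hab, _⟩ | ⟨x, a, b, c, ha, _⟩ | ⟨a, b, c, d, hab, _⟩
    · exact hI _ _ hxy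
    · exact hI _ _ hab
    · exact hI _ _ ha
    · exact hI _ _ hab
  | three P e =>
    intro hF
    obtain ⟨e⟩ := e
    have hF' := fe_iso e hF
    clear hF
    have k1 : ∀ p q : Fin 2, ¬ IncP (Sum.inl p : Fin 2 ⊕ Fin 1) (Sum.inl q) := by
      intro p q h
      rcases le_total p q with h' | h'
      · exact h.1 (Sum.inl_le_inl_iff.mpr h')
      · exact h.2 (Sum.inl_le_inl_iff.mpr h')
    have k2 : ∀ p q : Fin 1, ¬ IncP (Sum.inr p : Fin 2 ⊕ Fin 1) (Sum.inr q) := by
      intro p q h
      exact h.1 (Sum.inr_le_inr_iff.mpr (le_of_eq (Subsingleton.elim p q)))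
    have k3 : ∀ (p : Fin 2) (q : Fin 1), IncP (Sum.inl p : Fin 2 ⊕ Fin 1) (Sum.inr q) := by
      intro p q
      exact ⟨Sum.not_inl_le_inr, Sum.not_inr_le_inl⟩
    have k4 : ∀ (p : Fin 2) (x : Fin 2 ⊕ Fin 1), IncP (Sum.inl p) x → x = Sum.inr 0 := by
      intro p x hx
      rcases x with x | x
      · exact absurd hx (k1 _ _)
      · rw [Subsingleton.elim x 0]
    have k5 : ∀ (p : Fin 1) (x : Fin 2 ⊕ Fin 1), IncP (Sum.inr p) x →
        x = Sum.inl 0 ∨ x = Sum.inl 1 := by
      intro p x hx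
      rcases x with x | x
      · have : x = 0 ∨ x = 1 := by omega
        rcases this with h | h <;> rw [h]
        · exact Or.inl rfl
        · exact Or.inr rfl
      · exact absurd hx (k2 _ _)
    rcases hF' with ⟨x, y, hxy, hz⟩ | ⟨a, b, c, hab, hbc, hac⟩ |
      ⟨x, a, b, c, ha, hb, hc, n1, n2, n3⟩ | ⟨a, b, c, d, hab, hbc, hcd, n1, n2, n3⟩
    · rcases x with x | x
      · have hy := k4 x y hxy
        subst hy
        rcases (show x = 0 ∨ x = 1 by omega) with rfl | rfl
        · exact (hz (Sum.inl 1) (by simp) (by simp)).2 (fe_symm (k3 1 0))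
        · exact (hz (Sum.inl 0) (by simp) (by simp)).2 (fe_symm (k3 0 0))
      · rcases k5 x y hxy with rfl | rfl
        · refine (hz (Sum.inl 1) (by simp) (by simp)).1 (fe_symm (k3 1 x))
        · refine (hz (Sum.inl 0) (by simp) (by simp)).1 (fe_symm (k3 0 x))
    · rcases a with a | a
      · have h1 := k4 a b hab
        have h2 := k4 a c hac
        rw [h1, h2] at hbc
        exact k2 _ _ hbc
      · rcases k5 a b hab with rfl | rfl <;> rcases k5 a c hac with rfl | rfl
        all_goals exact k1 _ _ hbc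
    · rcases x with x | x
      · have h1 := k4 x a ha
        have h2 := k4 x b hb
        exact n1 (h1.trans h2.symm)
      · rcases k5 x a ha with e1 | e1 <;> rcases k5 x b hb with e2 | e2 <;>
          rcases k5 x c hc with e3 | e3
        · exact n1 (e1.trans e2.symm)
        · exact n1 (e1.trans e2.symm)
        · exact n2 (e1.trans e3.symm)
        · exact n3 (e2.trans e3.symm)
        · exact n3 (e2.trans e3.symm)
        · exact n2 (e1.trans e3.symm)
        · exact n1 (e1.trans e2.symm)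
        · exact n1 (e1.trans e2.symm)
    · rcases b with b | b
      · have h1 := k4 b a (fe_symm hab)
        have h2 := k4 b c hbc
        exact n1 (h1.trans h2.symm)
      · rcases k5 b c hbc with e1 | e1
        · rw [e1] at hcd
          have h2 := k4 0 d hcd
          exact n3 (by rw [h2, Subsingleton.elim b 0])
        · rw [e1] at hcd
          have h2 := k4 1 d hcd
          exact n3 (by rw [h2, Subsingleton.elim b 0])
  | sum P Q R hP hQ e ihP ihQ =>
    intro hF
    obtain ⟨e⟩ := e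
    have hF' := fe_iso e hF
    clear hF
    have k1 : ∀ p q : P, IncP (toLex (Sum.inl p) : P ⊕ₗ Q) (toLex (Sum.inl q)) ↔ IncP p q := by
      intro p q
      simp [IncP]
    have k2 : ∀ p q : Q, IncP (toLex (Sum.inr p) : P ⊕ₗ Q) (toLex (Sum.inr q)) ↔ IncP p q := by
      intro p q
      simp [IncP]
    have k3 : ∀ (p : P) (x : P ⊕ₗ Q), IncP (toLex (Sum.inl p)) x →
        ∃ q, x = toLex (Sum.inl q) ∧ IncP p q := by
      intro p x hx
      rcases x with q | q
      · exact ⟨q, rfl, (k1 p q).mp hx⟩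
      · exact absurd (Sum.Lex.inl_le_inr p q) hx.1
    have k4 : ∀ (p : Q) (x : P ⊕ₗ Q), IncP (toLex (Sum.inr p)) x →
        ∃ q, x = toLex (Sum.inr q) ∧ IncP p q := by
      intro p x hx
      rcases x with q | q
      · exact absurd (Sum.Lex.inl_le_inr q p) hx.2
      · exact ⟨q, rfl, (k2 p q).mp hx⟩
    rcases hF' with ⟨x, y, hxy, hz⟩ | ⟨a, b, c, hab, hbc, hac⟩ |
      ⟨x, a, b, c, ha, hb, hc, n1, n2, n3⟩ | ⟨a, b, c, d, hab, hbc, hcd, n1, n2, n3⟩
    · rcases x with x | x
      · obtain ⟨y', rfl, hy⟩ := k3 x y hxy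
        refine ihP (Or.inl ⟨x, y', hy, ?_⟩)
        intro z hzx hzy
        have := hz (toLex (Sum.inl z)) (fun h => hzx (Sum.inl_injective (toLex.injective h)))
          (fun h => hzy (Sum.inl_injective (toLex.injective h)))
        exact ⟨fun h => this.1 ((k1 _ _).mpr h), fun h => this.2 ((k1 _ _).mpr h)⟩
      · obtain ⟨y', rfl, hy⟩ := k4 x y hxy
        refine ihQ (Or.inl ⟨x, y', hy, ?_⟩)
        intro z hzx hzy
        have := hz (toLex (Sum.inr z)) (fun h => hzx (Sum.inr_injective (toLex.injective h)))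
          (fun h => hzy (Sum.inr_injective (toLex.injective h)))
        exact ⟨fun h => this.1 ((k2 _ _).mpr h), fun h => this.2 ((k2 _ _).mpr h)⟩
    · rcases a with a | a
      · obtain ⟨b', rfl, hb⟩ := k3 a b hab
        obtain ⟨c', rfl, hc⟩ := k3 a c hac
        exact ihP (Or.inr (Or.inl ⟨a, b', c', hb, (k1 _ _).mp hbc, hc⟩))
      · obtain ⟨b', rfl, hb⟩ := k4 a b hab
        obtain ⟨c', rfl, hc⟩ := k4 a c hac
        exact ihQ (Or.inr (Or.inl ⟨a, b', c', hb, (k2 _ _).mp hbc, hc⟩))
    · rcases x with x | x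
      · obtain ⟨a', rfl, ha'⟩ := k3 x a ha
        obtain ⟨b', rfl, hb'⟩ := k3 x b hb
        obtain ⟨c', rfl, hc'⟩ := k3 x c hc
        exact ihP (Or.inr (Or.inr (Or.inl ⟨x, a', b', c', ha', hb', hc', fun h => n1 (by rw [h]),
          fun h => n2 (by rw [h]), fun h => n3 (by rw [h])⟩)))
      · obtain ⟨a', rfl, ha'⟩ := k4 x a ha
        obtain ⟨b', rfl, hb'⟩ := k4 x b hb
        obtain ⟨c', rfl, hc'⟩ := k4 x c hc
        exact ihQ (Or.inr (Or.inr (Or.inl ⟨x, a', b', c', ha', hb', hc', fun h => n1 (by rw [h]),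
          fun h => n2 (by rw [h]), fun h => n3 (by rw [h])⟩)))
    · rcases a with a | a
      · obtain ⟨b', rfl, hb'⟩ := k3 a b hab
        obtain ⟨c', rfl, hc'⟩ := k3 b' c hbc
        obtain ⟨d', rfl, hd'⟩ := k3 c' d hcd
        exact ihP (Or.inr (Or.inr (Or.inr ⟨a, b', c', d', hb', hc', hd', fun h => n1 (by rw [h]; rfl),
          fun h => n2 (by rw [h]; rfl), fun h => n3 (by rw [h])⟩)))
      · obtain ⟨b', rfl, hb'⟩ := k4 a b hab
        obtain ⟨c', rfl, hc'⟩ := k4 b' c hbc
        obtain ⟨d', rfl, hd'⟩ := k4 c' d hcd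
        exact ihQ (Or.inr (Or.inr (Or.inr ⟨a, b', c', d', hb', hc', hd', fun h => n1 (by rw [h]; rfl),
          fun h => n2 (by rw [h]; rfl), fun h => n3 (by rw [h])⟩)))


/-- the feature of the rest is a feature of the whole -/
private lemma fe_rest {P : Type} [PartialOrder P] (S : P → Prop)
    (h : ∀ a b, S a → ¬ S b → a < b)
    (hF : FeatG (V := {x // ¬ S x}) (fun x y => IncP x y)) :
    FeatG (V := P) (fun x y => IncP x y) := by
  refine fe_map _ _ (Subtype.val) Subtype.val_injective ?_ ?_ hF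
  · intro x y hxy
    exact hxy
  · intro x w hw
    by_cases hS : S w
    · exact absurd (h w x hS x.2).le hw.2
    · exact ⟨⟨w, hS⟩, rfl, hw⟩

/-- one step of the induction -/
private lemma fe_step {P : Type} [Fintype P] [PartialOrder P] (S : P → Prop)
    (h : ∀ a b, S a → ¬ S b → a < b) (hS : InD {x // S x}) (hne : ∃ x, S x)
    (ih : ∀ (Q : Type) [Fintype Q] [PartialOrder Q] [Nonempty Q], Fintype.card Q < Fintype.card P →
      ¬ FeatG (V := Q) (fun x y => IncP x y) → InD Q)
    (hF : ¬ FeatG (V := P) (fun x y => IncP x y)) : InD P := by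
  by_cases hall : ∀ x, S x
  · refine fe_InD_iso hS ?_
    exact { toEquiv := Equiv.subtypeUnivEquiv hall, map_rel_iff' := Iff.rfl }
  · push Not at hall
    obtain ⟨y, hy⟩ := hall
    have : Nonempty {x // ¬ S x} := ⟨⟨y, hy⟩⟩
    obtain ⟨x, hx⟩ := hne
    refine InD.sum {x // S x} {x // ¬ S x} P hS ?_ (fe_split S h)
    refine ih {x // ¬ S x} ?_ (fun hF' => hF (fe_rest S h hF'))
    exact Fintype.card_subtype_lt (x := x) (fun hn => hn hx)

private lemma fe_three {P : Type} [PartialOrder P] (a b c : P) (hab : IncP a b) (hac : IncP a c)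
    (hbc : b < c) : Nonempty ({x // x = a ∨ x = b ∨ x = c} ≃o (Fin 2 ⊕ Fin 1)) := by
  have nab : a ≠ b := fe_ne hab
  have nac : a ≠ c := fe_ne hac
  have nbc : b ≠ c := hbc.ne
  let f : Fin 2 ⊕ Fin 1 → {x // x = a ∨ x = b ∨ x = c} := fun s =>
    match s with
    | Sum.inl i => if i = 0 then ⟨b, Or.inr (Or.inl rfl)⟩ else ⟨c, Or.inr (Or.inr rfl)⟩
    | Sum.inr _ => ⟨a, Or.inl rfl⟩
  have f0 : f (Sum.inl 0) = ⟨b, Or.inr (Or.inl rfl)⟩ := by simp [f]
  have f1 : f (Sum.inl 1) = ⟨c, Or.inr (Or.inr rfl)⟩ := by simp [f]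
  have f2 : f (Sum.inr 0) = ⟨a, Or.inl rfl⟩ := rfl
  have hcases : ∀ s : Fin 2 ⊕ Fin 1, s = Sum.inl 0 ∨ s = Sum.inl 1 ∨ s = Sum.inr 0 := by
    intro s
    rcases s with i | i
    · rcases (show i = 0 ∨ i = 1 by omega) with rfl | rfl
      · exact Or.inl rfl
      · exact Or.inr (Or.inl rfl)
    · right; right
      rw [Subsingleton.elim i 0]
  have hle : ∀ s t, f s ≤ f t ↔ s ≤ t := by
    intro s t
    rcases hcases s with rfl | rfl | rfl <;> rcases hcases t with rfl | rfl | rfl
    · simp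
    · rw [f0, f1]
      simp [Sum.inl_le_inl_iff, hbc.le]
    · rw [f0, f2]
      simp [Sum.not_inl_le_inr, hab.2]
    · rw [f0, f1]
      simp [Sum.inl_le_inl_iff, hbc.not_ge]
    · simp
    · rw [f1, f2]
      simp [Sum.not_inl_le_inr, hac.2]
    · rw [f0, f2]
      simp [Sum.not_inr_le_inl, hab.1]
    · rw [f1, f2]
      simp [Sum.not_inr_le_inl, hac.1]
    · simp
  have hinj : Function.Injective f := by
    intro s t hst
    exact le_antisymm ((hle s t).mp hst.le) ((hle t s).mp hst.ge)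
  have hsurj : Function.Surjective f := by
    rintro ⟨x, hx⟩
    rcases hx with rfl | rfl | rfl
    · exact ⟨Sum.inr 0, f2⟩
    · exact ⟨Sum.inl 0, f0⟩
    · exact ⟨Sum.inl 1, f1⟩
  let e : (Fin 2 ⊕ Fin 1) ≃o {x // x = a ∨ x = b ∨ x = c} :=
    { toEquiv := Equiv.ofBijective f ⟨hinj, hsurj⟩
      map_rel_iff' := fun {s t} => hle s t }
  exact ⟨e.symm⟩

private lemma fe_main (n : ℕ) : ∀ (P : Type) [Fintype P] [PartialOrder P] [Nonempty P],
    Fintype.card P = n → ¬ FeatG (V := P) (fun x y => IncP x y) → InD P := by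
  induction n using Nat.strong_induction_on with
  | _ n IH =>
    intro P _ _ _ hn hF
    have ih : ∀ (Q : Type) [Fintype Q] [PartialOrder Q] [Nonempty Q],
        Fintype.card Q < Fintype.card P → ¬ FeatG (V := Q) (fun x y => IncP x y) → InD Q := by
      intro Q _ _ _ hQ hFQ
      exact IH _ (hn ▸ hQ) Q rfl hFQ
    obtain ⟨m, hm⟩ : ∃ m : P, IsMin m := by
      obtain ⟨m, _, hm⟩ := exists_minimal_le_of_wellFoundedLT (fun _ : P => True)
        (Classical.arbitrary P) trivial
      exact ⟨m, fun b hb => hm.le_of_le trivial hb⟩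
    by_cases hall : ∀ x, m ≤ x
    · refine fe_step (fun x => x = m) ?_ ?_ ⟨m, rfl⟩ ih hF
      · intro a b ha hb
        subst ha
        exact lt_of_le_of_ne (hall b) (fun h => hb h.symm)
      · refine InD.one _ ⟨?_⟩
        haveI : Unique {x // x = m} := ⟨⟨⟨m, rfl⟩⟩, fun x => Subtype.ext x.2⟩
        exact { toEquiv := Equiv.ofUnique _ _
                map_rel_iff' := by
                  intro x y
                  exact ⟨fun _ => le_of_eq (Subsingleton.elim _ _),
                    fun _ => le_of_eq (Subsingleton.elim _ _)⟩ }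
    · push Not at hall
      obtain ⟨x0, hx0⟩ := hall
      obtain ⟨m', hm'x, hm'⟩ : ∃ m' : P, m' ≤ x0 ∧ IsMin m' := by
        obtain ⟨m', h1, h2⟩ := exists_minimal_le_of_wellFoundedLT (fun _ : P => True) x0 trivial
        exact ⟨m', h1, fun b hb => h2.le_of_le trivial hb⟩
      have hmm : IncP m m' := by
        refine ⟨fun h => hx0 (h.trans hm'x), fun h => ?_⟩
        exact hx0 ((hm h).trans hm'x)
      -- the three elements
      obtain ⟨a, b, c, ha, hb, hab, hac, hbc⟩ : ∃ a b c : P, IsMin a ∧ IsMin b ∧ IncP a b ∧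
          IncP a c ∧ b < c := by
        have h1 : ¬ ∀ z, z ≠ m → z ≠ m' → ¬ IncP m z ∧ ¬ IncP m' z := by
          intro h
          exact hF (Or.inl ⟨m, m', hmm, h⟩)
        push Not at h1
        obtain ⟨c, hc1, hc2, hc3⟩ := h1
        by_cases hc : IncP m c
        · refine ⟨m, m', c, hm, hm', hmm, hc, ?_⟩
          have hn : ¬ IncP m' c := fun h => hF (Or.inr (Or.inl ⟨m, m', c, hmm, h, hc⟩))
          by_contra hlt
          refine hn ⟨fun h => hlt (lt_of_le_of_ne h (Ne.symm hc2)), fun h => ?_⟩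
          exact hc2 (le_antisymm h (hm' h))
        · have hc' := hc3 hc
          refine ⟨m', m, c, hm', hm, fe_symm hmm, hc', ?_⟩
          by_contra hlt
          refine hc ⟨fun h => hlt (lt_of_le_of_ne h (Ne.symm hc1)), fun h => ?_⟩
          exact hc1 (le_antisymm h (hm h))
      have nab : a ≠ b := fe_ne hab
      have nac : a ≠ c := fe_ne hac
      have nbc : b ≠ c := hbc.ne
      have key : ∀ z, z ≠ a → z ≠ b → z ≠ c → a < z ∧ b < z ∧ c < z := by
        intro z hza hzb hzc
        have h1 : ¬ IncP a z := fun h => hF (Or.inr (Or.inr (Or.inl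
          ⟨a, b, c, z, hab, hac, h, nbc, Ne.symm hzb, Ne.symm hzc⟩)))
        have h2 : ¬ IncP b z := fun h => hF (Or.inr (Or.inr (Or.inr
          ⟨z, b, a, c, fe_symm h, fe_symm hab, hac, hza, hzc, nbc⟩)))
        have h3 : ¬ IncP c z := fun h => hF (Or.inr (Or.inr (Or.inr
          ⟨z, c, a, b, fe_symm h, fe_symm hac, hab, hza, hzb, Ne.symm nbc⟩)))
        have g1 : a < z := by
          by_contra hlt
          refine h1 ⟨fun h => hlt (lt_of_le_of_ne h (Ne.symm hza)), fun h => ?_⟩
          exact hza (le_antisymm h (ha h))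
        have g2 : b < z := by
          by_contra hlt
          refine h2 ⟨fun h => hlt (lt_of_le_of_ne h (Ne.symm hzb)), fun h => ?_⟩
          exact hzb (le_antisymm h (hb h))
        refine ⟨g1, g2, ?_⟩
        by_contra hlt
        refine h3 ⟨fun h => hlt (lt_of_le_of_ne h (Ne.symm hzc)), fun h => ?_⟩
        exact hac.1 (g1.le.trans h)
      refine fe_step (fun x => x = a ∨ x = b ∨ x = c) ?_ ?_ ⟨a, Or.inl rfl⟩ ih hF
      · intro x y hx hy
        have hy' := key y (fun h => hy (Or.inl h)) (fun h => hy (Or.inr (Or.inl h)))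
          (fun h => hy (Or.inr (Or.inr h)))
        rcases hx with rfl | rfl | rfl
        · exact hy'.1
        · exact hy'.2.1
        · exact hy'.2.2
      · exact InD.three _ (fe_three a b c hab hac hbc)

theorem prove_FEA : S_FEA := by
  intro P _ _ _ hF
  exact fe_main _ P rfl hF

end Run7.h640.FP
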