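import Mathlib
import Pool.Agent.Run7.h640.FP.Iface

/-! Project FP, piece KEEPW: the width is kept. -/

set_option autoImplicit false

open Finset
open scoped Classical

namespace Run7.h640.FP

private lemma kw_win_symm {R : ℕ} {r' r : ℕ → ℕ → Prop} {a' a : ℕ} (h : Win R r' a' r a) :
    Win R r a r' a' := fun u v hu hv => (h u v hu hv).symm

/-- an antichain lies in a window -/
private lemma kw_locate {D R n : ℕ} {r : ℕ → ℕ → Prop} (hD : 1 ≤ D) (hDR : D ≤ R) (hRn : R ≤ n)
    (hr : Band D r) (A : Finset ℕ) (hA : A ⊆ range n)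
    (hA' : ∀ a ∈ A, ∀ b ∈ A, a ≠ b → Inc r a b) :
    ∃ k, k + R ≤ n ∧ ∀ x ∈ A, k ≤ x ∧ x < k + R := by
  rcases A.eq_empty_or_nonempty with rfl | hne
  · exact ⟨0, by omega, fun x hx => absurd hx (Finset.notMem_empty x)⟩
  · refine ⟨min (A.min' hne) (n - R), ?_, ?_⟩
    · have := min_le_right (A.min' hne) (n - R)
      omega
    · intro x hx
      have h1 : A.min' hne ≤ x := A.min'_le x hx
      have h2 : x < A.min' hne + D := by
        by_contra hcon
        have hlt : A.min' hne < x := by omega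
        have := hr.far (A.min' hne) x (by omega) hlt
        exact (hA' _ (A.min'_mem hne) x hx (by omega)).2.1 this
      have h3 : x < n := mem_range.mp (hA hx)
      have h4 := min_le_left (A.min' hne) (n - R)
      refine ⟨by omega, ?_⟩
      rcases min_choice (A.min' hne) (n - R) with h | h <;> rw [h] <;> omega

/-- an antichain in a window is copied -/
private lemma kw_copy {R n' : ℕ} {r' r : ℕ → ℕ → Prop} {k' k : ℕ} (h : Win R r' k' r k)
    (hk' : k' + R ≤ n') (A : Finset ℕ) (hA : ∀ x ∈ A, k ≤ x ∧ x < k + R)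
    (hA' : ∀ a ∈ A, ∀ b ∈ A, a ≠ b → Inc r a b) :
    ∃ B : Finset ℕ, B ⊆ range n' ∧ B.card = A.card ∧ ∀ a ∈ B, ∀ b ∈ B, a ≠ b → Inc r' a b := by
  refine ⟨A.image (fun x => x - k + k'), ?_, ?_, ?_⟩
  · intro x hx
    obtain ⟨y, hy, rfl⟩ := mem_image.mp hx
    have := hA y hy
    exact mem_range.mpr (by omega)
  · refine card_image_of_injOn ?_
    intro x hx y hy hxy
    have h1 := hA x hx
    have h2 := hA y hy
    simp only at hxy
    omega
  · intro x hx y hy hxy
    obtain ⟨a, ha, rfl⟩ := mem_image.mp hx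
    obtain ⟨b, hb, rfl⟩ := mem_image.mp hy
    have h1 := hA a ha
    have h2 := hA b hb
    have hab : a ≠ b := fun h => hxy (by rw [h])
    obtain ⟨_, i2, i3⟩ := hA' a ha b hb hab
    have e1 := h (a - k) (b - k) (by omega) (by omega)
    have e2 := h (b - k) (a - k) (by omega) (by omega)
    rw [show k + (a - k) = a by omega, show k + (b - k) = b by omega] at e1 e2
    rw [show k' + (a - k) = a - k + k' by omega, show k' + (b - k) = b - k + k' by omega] at e1 e2
    exact ⟨hxy, fun hh => i2 (e1.mp hh), fun hh => i3 (e2.mp hh)⟩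

theorem prove_KEEPW : S_KEEPW := by
  intro D R n w r hD hDR hRn hr hW
  obtain ⟨⟨A, hA, hAc, hA'⟩, hmax⟩ := hW
  obtain ⟨k, hk, hloc⟩ := kw_locate hD hDR hRn hr A hA hA'
  refine ⟨k, hk, ?_⟩
  intro r' n' k' hr' hL hk' hwin
  refine ⟨?_, ?_⟩
  · obtain ⟨B, h1, h2, h3⟩ := kw_copy hwin hk' A hloc hA'
    exact ⟨B, h1, h2.trans hAc, h3⟩
  · intro s hs hs'
    obtain ⟨t, ht, hloc2⟩ := kw_locate hD hDR hL.len' hr' s hs hs'
    obtain ⟨s0, hs0, hwin2⟩ := hL.mid t ht
    obtain ⟨B, h1, h2, h3⟩ := kw_copy (kw_win_symm hwin2) hs0 s hloc2 hs'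
    rw [← h2]
    exact hmax B h1 h3

end Run7.h640.FP
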