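import Mathlib
import Pool.Agent.Run7.h640.FP.AsmW
import Pool.Agent.Run7.h136.FP.CUT
import Pool.Agent.Run7.h629.FP.CONN
import Pool.Agent.Run7.h629.FP.TOP
import Pool.Agent.Run7.h640.FP.P_FE
import Pool.Agent.Run7.h640.FP.P_KEEPW
import Pool.Agent.Run7.h85.FP.Keep
import Pool.Agent.Run7.h85.FP.PigRed
import Pool.Agent.Run7.h640.FP2.LOCT
import Pool.Agent.Run7.h957.FP.STEP
import Pool.Agent.Run7.h957.FP.DUAL
import Pool.Agent.Run7.h957.FP.MAP
import Pool.Agent.Run7.h640.FP2.LOCB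
import Pool.Agent.Run7.h640.FP2.CMP
import Pool.Agent.Y491.ID.Main
import Pool.Agent.W853.Counter
import Pool.Agent.H293R3.BC.Count

/-! Project FP: end of the assembly. -/

set_option autoImplicit false

open Finset
open scoped Classical
open Pool.Agent.H13R3.WB

namespace Run7.h640.FP

theorem all : All where
  pos := Run7.h957.FP.prove_POS
  step := Run7.h957.FP.prove_STEP
  dual := Run7.h957.FP.prove_DUAL
  map := Run7.h957.FP.prove_MAP
  conn := Run7.h629.FP.prove_CONN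
  locb := Run7.h640.FP2.prove_LOCB
  loct := Run7.h640.FP2.prove_LOCT
  cut := prove_CUT
  pig := Pool.Agent.Run7.h85.FP.prove_PIG
  red := Pool.Agent.Run7.h85.FP.prove_RED
  cmp := Run7.h640.FP2.prove_CMP
  top := Run7.h629.FP.prove_TOP
  back := Run7.h629.FP.prove_BACK

theorem sID : S_ID := Pool.Agent.Y491.ID.incomparable_balance

/-- the reference poset outside `𝒟` -/
theorem refD : ∃ (Q : Type) (_ : Fintype Q) (_ : PartialOrder Q),
      Fintype.card Q = 41 ∧ ¬ InD Q ∧ balance Q ≤ 2 / 5 := by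
  refine ⟨Pool.Agent.W853.T41.W, inferInstance, inferInstance, Pool.Agent.W853.T41.card_W,
    Pool.Agent.W853.not_InD, ?_⟩
  have h := Pool.Agent.W853.balance_T41.trans_lt Pool.Agent.W853.lt_beta
  have h57 : Real.sqrt 57 ≤ 8 := by
    rw [show (8 : ℝ) = Real.sqrt 64 by rw [show (64 : ℝ) = 8 ^ 2 by norm_num]; simp]
    exact Real.sqrt_le_sqrt (by norm_num)
  have h2 : (5864893 + 27 * Real.sqrt 57) / 16812976 ≤ 2 / 5 := by
    rw [div_le_div_iff₀ (by norm_num) (by norm_num)]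
    nlinarith
  linarith

/-- a copy of `Fin n` without its order -/
structure FinT (n : ℕ) : Type where
  v : Fin n

/-- the copy -/
def tE (n : ℕ) : FinT n ≃ Fin n where
  toFun := fun a => a.v
  invFun := fun a => ⟨a⟩
  left_inv := fun _ => rfl
  right_inv := fun _ => rfl

noncomputable instance (n : ℕ) : Fintype (FinT n) := Fintype.ofEquiv _ (tE n).symm

/-- the partial order on the copy of `Fin n` given by a relation -/
@[reducible]
def poOf {n : ℕ} (r : Fin n → Fin n → Prop) (h : Pool.Agent.H293R3.BC.IsPo r) :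
    PartialOrder (FinT n) where
  le := fun a b => r a.v b.v
  le_refl := fun a => h.1 a.v
  le_trans := fun a b c => h.2.1 a.v b.v c.v
  le_antisymm := fun a b h1 h2 => (tE n).injective (h.2.2 a.v b.v h1 h2)

lemma prob_poOf {n : ℕ} (r : Fin n → Fin n → Prop) (h : Pool.Agent.H293R3.BC.IsPo r)
    (x y : FinT n) : @prob (FinT n) _ (poOf r h) x y =
      Pool.Agent.H293R3.BC.A r x.v y.v / Pool.Agent.H293R3.BC.E r := by
  unfold prob
  rw [← Pool.Agent.H293R3.BC.card_A, ← Pool.Agent.H293R3.BC.card_E]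
  have hc : Fintype.card (FinT n) = n := by
    rw [Fintype.card_congr (tE n)]
    exact Fintype.card_fin n
  let F : (FinT n ≃ Fin (Fintype.card (FinT n))) ≃ Equiv.Perm (Fin n) :=
    Equiv.equivCongr (tE n) (finCongr hc)
  have hn : ∀ f : FinT n ≃ Fin (Fintype.card (FinT n)), ∀ a : Fin n,
      ((F f a : Fin n) : ℕ) = (f ⟨a⟩ : ℕ) := by
    intro f a
    simp [F, Equiv.equivCongr, tE]
  congr 1
  · norm_cast
    refine Nat.card_congr (Equiv.subtypeEquiv F ?_)
    intro f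
    constructor
    · rintro ⟨h1, h2⟩
      refine ⟨fun a b hab => ?_, ?_⟩
      · have h3 := Fin.le_def.mp (h1 (a := ⟨a⟩) (b := ⟨b⟩) hab)
        rw [Fin.le_def, hn, hn]
        exact h3
      · rw [Fin.lt_def, hn, hn]
        exact Fin.lt_def.mp h2
    · rintro ⟨h1, h2⟩
      refine ⟨fun a b hab => ?_, ?_⟩
      · have h3 := h1 a.v b.v hab
        rw [Fin.le_def, hn, hn] at h3
        exact Fin.le_def.mpr h3
      · rw [Fin.lt_def, hn, hn] at h2
        exact Fin.lt_def.mpr h2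
  · norm_cast
    refine Nat.card_congr (Equiv.subtypeEquiv F ?_)
    intro f
    constructor
    · intro h1 a b hab
      have h3 := Fin.le_def.mp (h1 (a := ⟨a⟩) (b := ⟨b⟩) hab)
      rw [Fin.le_def, hn, hn]
      exact h3
    · intro h1 a b hab
      have h3 := h1 a.v b.v hab
      rw [Fin.le_def, hn, hn] at h3
      exact Fin.le_def.mpr h3

/-- the reference poset of width `w` -/
theorem refW (w : ℕ) (hw : 1 ≤ w) : ∃ (Q : Type) (_ : Fintype Q) (_ : PartialOrder Q),
      Width w Q ∧ balance Q ≤ 1 / 2 - 1 / (12 * (w : ℝ) - 8) := by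
  obtain ⟨n, r, -, -, h⟩ := Pool.Agent.H293R3.BC.exists_poset w hw
  have hb : (0 : ℝ) ≤ 1 / 2 - 1 / (12 * (w : ℝ) - 8) := by
    have hw1 : (1 : ℝ) ≤ w := by exact_mod_cast hw
    have : 1 / (12 * (w : ℝ) - 8) ≤ 1 / 4 := by
      apply one_div_le_one_div_of_le (by norm_num)
      linarith
    linarith
  let i : PartialOrder (FinT n) := poOf r h.po
  refine ⟨FinT n, inferInstance, i, ⟨?_, ?_⟩, ?_⟩
  · obtain ⟨s, hs1, hs2⟩ := h.wid
    refine ⟨s.image (tE n).symm, ?_, ?_⟩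
    · rw [card_image_of_injective _ (tE n).symm.injective, hs1]
    · intro a ha b hb hab
      rw [mem_coe, mem_image] at ha hb
      obtain ⟨a', ha', rfl⟩ := ha
      obtain ⟨b', hb', rfl⟩ := hb
      exact hs2 a' ha' b' hb' (fun hh => hab (by rw [hh]))
  · intro s hs
    rw [← card_image_of_injective _ (tE n).injective]
    apply h.wid_le
    intro a ha b hb hab
    rw [mem_image] at ha hb
    obtain ⟨a', ha', rfl⟩ := ha
    obtain ⟨b', hb', rfl⟩ := hb
    exact hs ha' hb' (fun hh => hab (congrArg (tE n) hh))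
  · unfold balance
    apply Real.iSup_le _ hb
    rintro ⟨x, y⟩
    simp only
    by_cases h1 : x ≤ y
    · rw [prob_eq_zero_of_le h1]
      exact (min_le_right _ _).trans hb
    · by_cases h2 : y ≤ x
      · rw [prob_eq_zero_of_le h2]
        exact (min_le_left _ _).trans hb
      · have e1 := prob_poOf r h.po x y
        have e2 := prob_poOf r h.po y x
        refine le_trans (le_of_eq ?_) (h.bal x.v y.v h1 h2)
        rw [← e1, ← e2]

/-- Posets outside `𝒟`. -/
theorem outsideD_final :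
    ∃ C c : ℝ, 0 < C ∧ 0 < c ∧ ∀ (P : Type) [Fintype P] [PartialOrder P] [Nonempty P], ¬ InD P →
      ∀ n : ℕ, 2 ≤ n → ∃ (Q : Type) (_ : Fintype Q) (_ : PartialOrder Q) (_ : Nonempty Q),
        Fintype.card Q ≤ n ∧ ¬ InD Q ∧ balance Q ≤ balance P + C * (n : ℝ) ^ (-c) :=
  outsideD all sID prove_FEA prove_FEB Pool.Agent.Run7.h85.FP.prove_KEEP refD

/-- Posets of width `w`. -/
theorem width_final (w : ℕ) (hw : 1 ≤ w) :
    ∃ C c : ℝ, 0 < C ∧ 0 < c ∧ ∀ (P : Type) [Fintype P] [PartialOrder P], Width w P →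
      ∀ n : ℕ, w ≤ n → ∃ (Q : Type) (_ : Fintype Q) (_ : PartialOrder Q),
        Fintype.card Q ≤ n ∧ Width w Q ∧ balance Q ≤ balance P + C * (n : ℝ) ^ (-c) := by
  have hw1 : (1 : ℝ) ≤ w := by exact_mod_cast hw
  have h4 : (0 : ℝ) < 12 * (w : ℝ) - 8 := by linarith
  refine widthW all sID prove_KEEPW w hw (1 / (12 * (w : ℝ) - 8)) (by positivity) ?_ (refW w hw)
  apply one_div_le_one_div_of_le (by norm_num)
  linarith

/-- Posets which are not chains. -/
theorem nonchain_final :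
    ∃ C c : ℝ, 0 < C ∧ 0 < c ∧ ∀ (P : Type) [Fintype P] [PartialOrder P],
      (∃ x y : P, ¬ x ≤ y ∧ ¬ y ≤ x) →
      ∀ n : ℕ, 2 ≤ n → ∃ (Q : Type) (_ : Fintype Q) (_ : PartialOrder Q),
        Fintype.card Q ≤ n ∧ (∃ x y : Q, ¬ x ≤ y ∧ ¬ y ≤ x) ∧
          balance Q ≤ balance P + C * (n : ℝ) ^ (-c) := by
  refine nonchain all sID prove_FEB ?_
  obtain ⟨Q, i1, i2, h1, h2, h3⟩ := refD
  refine ⟨Q, i1, i2, ?_, h3⟩
  by_contra hno
  apply h2
  have : Nonempty Q := by rw [← Fintype.card_pos_iff, h1]; norm_num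
  apply prove_FEA Q
  rintro (⟨x, y, h, -⟩ | ⟨a, b, c, h, -⟩ | ⟨x, a, b, c, h, -⟩ | ⟨a, b, c, d, h, -⟩)
  · exact hno ⟨x, y, h⟩
  · exact hno ⟨a, b, h⟩
  · exact hno ⟨x, a, h⟩
  · exact hno ⟨a, b, h⟩

end Run7.h640.FP
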